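import Pool.Agent.H872R3.LK.Dec

/-! The canonical Kripke model. -/

set_option autoImplicit false

namespace Pool.Agent.H872R3.KH

namespace Nd

/-- the domain: least parameters of the classes -/
def dom (k : Nd) : Set P := {c | c.lv ≤ k.n ∧ ∀ d : P, d.lv ≤ k.n → eqP c d ∈ k.Θ → c ≤ d}

theorem dom_lv {k : Nd} (a : k.dom) : (a.1 : P).lv ≤ k.n := a.2.1

theorem rep (k : Nd) (c : P) (hc : c.lv ≤ k.n) : ∃ r : k.dom, eqP c r.1 ∈ k.Θ := by
  let T : Set P := {d | d.lv ≤ k.n ∧ eqP c d ∈ k.Θ}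
  have hT : T.Nonempty := ⟨c, hc, k.refl hc⟩
  have wf : WellFounded ((· < ·) : P → P → Prop) := wellFounded_lt
  refine ⟨⟨wf.min T hT, (wf.min_mem T hT).1, fun d hd he => ?_⟩, (wf.min_mem T hT).2⟩
  by_contra hlt
  exact wf.not_lt_min T (x := d) ⟨hd, k.trans (wf.min_mem T hT).2 he⟩ (not_le.1 hlt)

theorem dom_eq {k : Nd} (a b : k.dom) (h : eqP a.1 b.1 ∈ k.Θ) : a = b :=
  Subtype.ext (le_antisymm (a.2.2 b.1 b.2.1 h) (b.2.2 a.1 a.2.1 (k.symm h)))

theorem dom_mono {k l : Nd} (h : k ≤ l) : k.dom ⊆ l.dom := by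
  intro c hc
  refine ⟨hc.1.trans h.1, fun d hd he => ?_⟩
  by_cases hdk : d.lv ≤ k.n
  · refine hc.2 d hdk ?_
    rcases k.dec c d hc.1 hdk with h1 | h1
    · exact h1
    · exact absurd he (h1 l h)
  · push Not at hdk
    have h1 : (ofLex c).1 < (ofLex d).1 := lt_of_le_of_lt hc.1 hdk
    exact (Prod.Lex.lt_iff.2 (Or.inl h1)).le

theorem coe_lv {k : Nd} {m : ℕ} (u : Fin m → k.dom) : ∀ i, ((u i).1 : P).lv ≤ k.n :=
  fun i => (u i).2.1

theorem coe_cns {k : Nd} {m : ℕ} (a : k.dom) (u : Fin m → k.dom) :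
    (fun i => ((cns a u : Fin (m + 1) → k.dom) i).1) = cns a.1 (fun i => (u i).1) := by
  funext i
  refine Fin.cases rfl (fun j => rfl) i

theorem den_dom (k : Nd) {m : ℕ} (t : Tm m) (u : Fin m → k.dom) :
    ∃ r : k.dom, DenP t (fun i => (u i).1) r.1 ∈ k.Θ := by
  obtain ⟨c, hc, h⟩ := k.den_ex t (fun i => (u i).1) (coe_lv u)
  obtain ⟨r, hr⟩ := k.rep c hc
  refine ⟨r, k.of2 h hr (cns_lv r.2.1 (coe_lv u)) fun N Γ h1 h2 => ?_⟩
  rw [DenP_at] at h1 ⊢
  rw [eqP_at] at h2
  exact Prv.trans (Prv.symm h2) h1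

/-- the structure of a node -/
noncomputable def str (k : Nd) : Str k.dom where
  zero := (k.den_dom (.zero : Tm 0) (fun i => i.elim0)).choose
  succ a := (k.den_dom (.succ (.var 0) : Tm 1) (fun _ => a)).choose
  add a b := (k.den_dom (.add (.var 0) (.var 1) : Tm 2) (cns a (fun _ => b))).choose
  mul a b := (k.den_dom (.mul (.var 0) (.var 1) : Tm 2) (cns a (fun _ => b))).choose

theorem ev_spec (k : Nd) {m : ℕ} (u : Fin m → k.dom) (t : Tm m) :
    DenP t (fun i => (u i).1) (t.ev k.str u).1 ∈ k.Θ := by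
  have hl : ∀ a : k.dom, ∀ i, (cns (a.1 : P) (fun i => (u i).1) i).lv ≤ k.n :=
    fun a => cns_lv a.2.1 (coe_lv u)
  induction t with
  | var i =>
    refine k.of0 (hl _) fun N Γ => ?_
    rw [DenP_at]
    exact .refl _
  | zero =>
    refine k.of1 (k.den_dom (.zero : Tm 0) (fun i => i.elim0)).choose_spec (hl _) fun N Γ h => ?_
    rw [DenP_at] at h ⊢
    exact h
  | succ t ih =>
    refine k.of2 ih (k.den_dom (.succ (.var 0) : Tm 1) (fun _ => t.ev k.str u)).choose_spec (hl _)
      fun N Γ h h' => ?_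
    rw [DenP_at] at h h' ⊢
    refine Prv.trans h' ?_
    exact Prv.congr (m := 1) (.succ (.var 0)) (fun _ => _) (fun _ => _) (fun _ => h)
  | add t s iht ihs =>
    have h0 := (k.den_dom (.add (.var 0) (.var 1) : Tm 2)
      (cns (t.ev k.str u) (fun _ => s.ev k.str u))).choose_spec
    refine k.cl ⟨[DenP t (fun i => (u i).1) (t.ev k.str u).1,
      DenP s (fun i => (u i).1) (s.ev k.str u).1, DenP (.add (.var 0) (.var 1) : Tm 2)
        (fun i => ((cns (t.ev k.str u) (fun _ => s.ev k.str u) : Fin 2 → k.dom) i).1)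
        ((Tm.add t s).ev k.str u).1], ?_, 0, fun N _ => ?_⟩ (hl _)
    · intro x hx
      simp only [List.mem_cons, List.not_mem_nil, or_false] at hx
      rcases hx with rfl | rfl | rfl
      · exact iht
      · exact ihs
      · exact h0
    · simp only [List.map_cons, List.map_nil, DenP_at]
      refine Prv.trans (s := (Tm.add (.var 0) (.var 1) : Tm 2).subst (fun i => tmN N
        ((cns (t.ev k.str u) (fun _ => s.ev k.str u) : Fin 2 → k.dom) i).1))
        (.hyp (by simp)) ?_
      refine Prv.congr (m := 2) (.add (.var 0) (.var 1)) _ (cns (t.subst (fun i =>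
        tmN N (u i).1)) (fun _ => s.subst (fun i => tmN N (u i).1))) (fun i => ?_)
      refine Fin.cases (.hyp List.mem_cons_self) (fun j => ?_) i
      refine Fin.cases (.hyp (List.mem_cons_of_mem _ List.mem_cons_self)) (fun j => j.elim0) j
  | mul t s iht ihs =>
    have h0 := (k.den_dom (.mul (.var 0) (.var 1) : Tm 2)
      (cns (t.ev k.str u) (fun _ => s.ev k.str u))).choose_spec
    refine k.cl ⟨[DenP t (fun i => (u i).1) (t.ev k.str u).1,
      DenP s (fun i => (u i).1) (s.ev k.str u).1, DenP (.mul (.var 0) (.var 1) : Tm 2)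
        (fun i => ((cns (t.ev k.str u) (fun _ => s.ev k.str u) : Fin 2 → k.dom) i).1)
        ((Tm.mul t s).ev k.str u).1], ?_, 0, fun N _ => ?_⟩ (hl _)
    · intro x hx
      simp only [List.mem_cons, List.not_mem_nil, or_false] at hx
      rcases hx with rfl | rfl | rfl
      · exact iht
      · exact ihs
      · exact h0
    · simp only [List.map_cons, List.map_nil, DenP_at]
      refine Prv.trans (s := (Tm.mul (.var 0) (.var 1) : Tm 2).subst (fun i => tmN N
        ((cns (t.ev k.str u) (fun _ => s.ev k.str u) : Fin 2 → k.dom) i).1))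
        (.hyp (by simp)) ?_
      refine Prv.congr (m := 2) (.mul (.var 0) (.var 1)) _ (cns (t.subst (fun i =>
        tmN N (u i).1)) (fun _ => s.subst (fun i => tmN N (u i).1))) (fun i => ?_)
      refine Fin.cases (.hyp List.mem_cons_self) (fun j => ?_) i
      refine Fin.cases (.hyp (List.mem_cons_of_mem _ List.mem_cons_self)) (fun j => j.elim0) j

theorem eq_iff (k : Nd) {m : ℕ} (u : Fin m → k.dom) (t s : Tm m) :
    t.ev k.str u = s.ev k.str u ↔ (⟨m, .eq t s, fun i => (u i).1⟩ : PS) ∈ k.Θ := by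
  constructor
  · intro h
    have h1 := k.ev_spec u t
    have h2 := k.ev_spec u s
    rw [← h] at h2
    refine k.of2 h1 h2 (coe_lv u) fun N Γ h1 h2 => ?_
    rw [DenP_at] at h1 h2
    exact Prv.trans (Prv.symm h1) h2
  · intro h
    apply dom_eq
    refine k.cl ⟨[DenP t (fun i => (u i).1) (t.ev k.str u).1,
      DenP s (fun i => (u i).1) (s.ev k.str u).1, ⟨m, .eq t s, fun i => (u i).1⟩], ?_, 0,
      fun N _ => ?_⟩ (cns_lv (t.ev k.str u).2.1 (cns_lv (s.ev k.str u).2.1 k.e0_lv))
    · intro x hx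
      simp only [List.mem_cons, List.not_mem_nil, or_false] at hx
      rcases hx with rfl | rfl | rfl
      · exact k.ev_spec u t
      · exact k.ev_spec u s
      · exact h
    · simp only [List.map_cons, List.map_nil, DenP_at]
      rw [eqP_at]
      refine Prv.trans (s := t.subst (fun i => tmN N (u i).1)) (.hyp (by simp)) ?_
      refine Prv.trans (s := s.subst (fun i => tmN N (u i).1)) (.hyp ?_) (Prv.symm (.hyp (by simp)))
      refine List.mem_cons_of_mem _ (List.mem_cons_of_mem _ ?_)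
      exact List.mem_cons_self

end Nd

/-- the canonical model -/
noncomputable def can [h : Nonempty Nd] : KModel :=
  { K := Nd
    nonempty := h
    U := P
    dom := Nd.dom
    str := Nd.str
    dom_mono := fun {k l} h => Nd.dom_mono h
    atomic := by
      intro k l h n t s v e
      rw [Nd.eq_iff] at e ⊢
      exact h.2 e }

theorem can_truth [Nonempty Nd] {m : ℕ} (φ : Fm m) : ∀ (k : Nd) (u : Fin m → k.dom),
    can.Forces φ k u ↔ (⟨m, φ, fun i => (u i).1⟩ : PS) ∈ k.Θ := by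
  induction φ with
  | bot =>
    intro k u
    exact ⟨fun h => h.elim, fun h => k.bot _ h⟩
  | eq t s =>
    intro k u
    exact k.eq_iff u t s
  | and φ ψ ihφ ihψ =>
    intro k u
    rw [k.and_iff, ← ihφ, ← ihψ]
    rfl
  | or φ ψ ihφ ihψ =>
    intro k u
    rw [k.or_iff (Nd.coe_lv u), ← ihφ, ← ihψ]
    rfl
  | imp φ ψ ihφ ihψ =>
    intro k u
    rw [k.imp_iff (Nd.coe_lv u)]
    refine forall_congr' fun l => forall_congr' fun hkl => ?_
    exact imp_congr (ihφ l _) (ihψ l _)
  | all φ ih =>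
    intro k u
    rw [k.all_iff (Nd.coe_lv u)]
    constructor
    · intro h l hkl c hc
      obtain ⟨r, hr⟩ := l.rep c hc
      have h1 := (ih l _).1 (h l hkl r)
      refine l.repl (fun i => ?_) h1
      refine Fin.cases (l.symm hr) (fun j => ?_) i
      exact l.refl ((Nd.coe_lv u j).trans hkl.1)
    · intro h l hkl a
      refine (ih l _).2 ?_
      have := h l hkl a.1 a.2.1
      exact (Nd.coe_cns (k := l) a (fun i => Set.inclusion (Nd.dom_mono hkl) (u i))) ▸ this
  | ex φ ih =>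
    intro k u
    rw [k.ex_iff (Nd.coe_lv u)]
    constructor
    · rintro ⟨a, ha⟩
      refine ⟨a.1, a.2.1, ?_⟩
      have := (ih k _).1 ha
      exact (Nd.coe_cns (k := k) a u) ▸ this
    · rintro ⟨c, hc, h⟩
      obtain ⟨r, hr⟩ := k.rep c hc
      refine ⟨r, (ih k _).2 ?_⟩
      have h1 : (⟨_, φ, cns r.1 (fun i => (u i).1)⟩ : PS) ∈ k.Θ := by
        refine k.repl (fun i => ?_) h
        refine Fin.cases hr (fun j => ?_) i
        exact k.refl (Nd.coe_lv u j)
      exact (Nd.coe_cns (k := k) r u).symm ▸ h1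

theorem can_HA [Nonempty Nd] : can.ForcesHA := by
  intro k α hα
  have h : can.Forces α k (fun i => i.elim0) ↔
      (⟨0, α, fun i => ((fun i : Fin 0 => (i.elim0 : Nd.dom k)) i).1⟩ : PS) ∈ Nd.Θ k :=
    can_truth α k _
  refine h.2 ?_
  have e : (fun i => ((fun i : Fin 0 => (i.elim0 : Nd.dom k)) i).1) =
      (fun i : Fin 0 => (i.elim0 : P)) := funext fun i => i.elim0
  rw [e]
  exact Nd.ha k α hα

end Pool.Agent.H872R3.KH
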