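import Pool.Agent.H872R3.LK.Subst

/-! Sentences with parameters, and consequence. -/

set_option autoImplicit false

namespace Pool.Agent.H872R3.KH

/-- parameters: level and number, ordered lexicographically -/
abbrev P : Type := ℕ ×ₗ ℕ

/-- level of a parameter -/
def P.lv (p : P) : ℕ := (ofLex p).1

/-- parameters as terms -/
def tmN (N : ℕ) (p : P) : Tm N :=
  if h : Nat.pair (ofLex p).1 (ofLex p).2 < N then .var ⟨_, h⟩ else .zero

theorem tmN_lt (N : ℕ) (p : P) (h : Nat.pair (ofLex p).1 (ofLex p).2 < N) :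
    tmN N p = .var ⟨_, h⟩ := dif_pos h

theorem pairP_inj {p q : P} (h : Nat.pair (ofLex p).1 (ofLex p).2 =
    Nat.pair (ofLex q).1 (ofLex q).2) : p = q := by
  have h1 := Nat.pair_eq_pair.1 h
  exact ofLex_inj.1 (Prod.ext h1.1 h1.2)

/-- formulas whose free variables are parameters -/
structure PS where
  n : ℕ
  φ : Fm n
  v : Fin n → P

/-- the formula in a context of `N` variables -/
def PS.at (N : ℕ) (x : PS) : Fm N := x.φ.subst (fun i => tmN N (x.v i))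

/-- derivability -/
def Der (L : List PS) (χ : PS) : Prop := ∃ N0, ∀ N, N0 ≤ N → Prv (L.map (PS.at N)) (χ.at N)

/-- consequences of a set -/
def Cn (Θ : Set PS) (χ : PS) : Prop := ∃ L : List PS, (∀ x ∈ L, x ∈ Θ) ∧ Der L χ

theorem Der.weak {L L' : List PS} {χ : PS} (h : Der L χ) (hL : L ⊆ L') : Der L' χ := by
  obtain ⟨N0, h⟩ := h
  exact ⟨N0, fun N hN => (h N hN).weak (List.map_subset _ hL)⟩

theorem Cn.mono {Θ Θ' : Set PS} {χ : PS} (h : Cn Θ χ) (hΘ : Θ ⊆ Θ') : Cn Θ' χ := by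
  obtain ⟨L, hL, h⟩ := h
  exact ⟨L, fun x hx => hΘ (hL x hx), h⟩

theorem Cn.mem {Θ : Set PS} {χ : PS} (h : χ ∈ Θ) : Cn Θ χ :=
  ⟨[χ], by simpa using h, 0, fun _ _ => .hyp (by simp)⟩

/-- one-premise rules -/
theorem Cn.rule1 {Θ : Set PS} {a b : PS}
    (hr : ∀ (N : ℕ) (Γ : List (Fm N)), Prv Γ (a.at N) → Prv Γ (b.at N)) (h : Cn Θ a) : Cn Θ b := by
  obtain ⟨L, hL, N0, h⟩ := h
  exact ⟨L, hL, N0, fun N hN => hr N _ (h N hN)⟩

/-- two-premise rules -/
theorem Cn.rule2 {Θ : Set PS} {a b c : PS}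
    (hr : ∀ (N : ℕ) (Γ : List (Fm N)), Prv Γ (a.at N) → Prv Γ (b.at N) → Prv Γ (c.at N))
    (h : Cn Θ a) (h' : Cn Θ b) : Cn Θ c := by
  obtain ⟨L, hL, N0, h⟩ := h
  obtain ⟨L', hL', N0', h'⟩ := h'
  refine ⟨L ++ L', ?_, max N0 N0', fun N hN => ?_⟩
  · intro x hx
    rcases List.mem_append.1 hx with h | h
    · exact hL x h
    · exact hL' x h
  · rw [List.map_append]
    exact hr N _ ((h N ((le_max_left _ _).trans hN)).weak (List.subset_append_left _ _))
      ((h' N ((le_max_right _ _).trans hN)).weak (List.subset_append_right _ _))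

theorem Cn.insert_iff {Θ : Set PS} {a b : PS} :
    Cn (insert a Θ) b ↔ ∃ L : List PS, (∀ x ∈ L, x ∈ Θ) ∧ Der (a :: L) b := by
  classical
  constructor
  · rintro ⟨L, hL, h⟩
    refine ⟨L.filter (fun x => x ≠ a), fun x hx => ?_, h.weak fun x hx => ?_⟩
    · have h1 := List.mem_filter.1 hx
      have h2 : x ≠ a := by simpa using h1.2
      exact (Set.mem_insert_iff.1 (hL x h1.1)).resolve_left h2
    · by_cases hxa : x = a
      · rw [hxa]; exact List.mem_cons_self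
      · exact List.mem_cons_of_mem _ (List.mem_filter.2 ⟨hx, by simpa using hxa⟩)
  · rintro ⟨L, hL, h⟩
    refine ⟨a :: L, fun x hx => ?_, h⟩
    rcases List.mem_cons.1 hx with h | h
    · rw [h]; exact Set.mem_insert _ _
    · exact Set.mem_insert_of_mem _ (hL x h)

theorem Cn.cut {Θ : Set PS} {a b : PS} (h : Cn Θ a) (h' : Cn (insert a Θ) b) : Cn Θ b := by
  obtain ⟨L', hL', N0', h'⟩ := Cn.insert_iff.1 h'
  obtain ⟨L, hL, N0, h⟩ := h
  refine ⟨L ++ L', ?_, max N0 N0', fun N hN => ?_⟩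
  · intro x hx
    rcases List.mem_append.1 hx with h | h
    · exact hL x h
    · exact hL' x h
  · rw [List.map_append]
    refine Prv.cut ((h N ((le_max_left _ _).trans hN)).weak (List.subset_append_left _ _)) ?_
    refine (h' N ((le_max_right _ _).trans hN)).weak ?_
    rw [List.map_cons]
    exact List.cons_subset_cons _ (List.subset_append_right _ _)

theorem Cn.impI {Θ : Set PS} {n : ℕ} {φ ψ : Fm n} {v : Fin n → P}
    (h : Cn (insert ⟨n, φ, v⟩ Θ) ⟨n, ψ, v⟩) : Cn Θ ⟨n, .imp φ ψ, v⟩ := by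
  obtain ⟨L, hL, N0, h⟩ := Cn.insert_iff.1 h
  exact ⟨L, hL, N0, fun N hN => .impI (h N hN)⟩

theorem Cn.impE {Θ : Set PS} {n : ℕ} {φ ψ : Fm n} {v : Fin n → P}
    (h : Cn Θ ⟨n, .imp φ ψ, v⟩) (h' : Cn Θ ⟨n, φ, v⟩) : Cn Θ ⟨n, ψ, v⟩ :=
  Cn.rule2 (a := ⟨n, .imp φ ψ, v⟩) (b := ⟨n, φ, v⟩)
    (fun N Γ (h1 : Prv Γ (.imp (PS.at N ⟨n, φ, v⟩) (PS.at N ⟨n, ψ, v⟩))) h2 => .impE h1 h2) h h'

theorem Cn.orE {Θ : Set PS} {n : ℕ} {φ ψ : Fm n} {v : Fin n → P} {b : PS}
    (h : Cn Θ ⟨n, .or φ ψ, v⟩) (h1 : Cn (insert ⟨n, φ, v⟩ Θ) b) (h2 : Cn (insert ⟨n, ψ, v⟩ Θ) b) :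
    Cn Θ b := by
  obtain ⟨L, hL, N0, h⟩ := h
  obtain ⟨L1, hL1, N1, h1⟩ := Cn.insert_iff.1 h1
  obtain ⟨L2, hL2, N2, h2⟩ := Cn.insert_iff.1 h2
  refine ⟨L ++ L1 ++ L2, ?_, max N0 (max N1 N2), fun N hN => ?_⟩
  · intro x hx
    rcases List.mem_append.1 hx with hx | hx
    · rcases List.mem_append.1 hx with h | h
      · exact hL x h
      · exact hL1 x h
    · exact hL2 x hx
  · rw [List.map_append, List.map_append]
    refine .orE ((h N ((le_max_left _ _).trans hN)).weak ?_)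
      ((h1 N (((le_max_left _ _).trans (le_max_right _ _)).trans hN)).weak ?_)
      ((h2 N (((le_max_right _ _).trans (le_max_right _ _)).trans hN)).weak ?_)
    · intro x hx; simp only [List.mem_append]; tauto
    · rw [List.map_cons]
      refine List.cons_subset_cons _ ?_
      intro x hx; simp only [List.mem_append]; tauto
    · rw [List.map_cons]
      refine List.cons_subset_cons _ ?_
      intro x hx; simp only [List.mem_append]; tauto

/-- `c` does not occur in `x` -/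
def Fresh (c : P) (x : PS) : Prop := ∀ i, x.v i ≠ c

/-- renaming of the variable of `c` to `0`, the other variables are shifted -/
def rn (N : ℕ) (c : P) : Fin N → Tm (N + 1) := fun i =>
  if i.1 = Nat.pair (ofLex c).1 (ofLex c).2 then .var 0 else .var i.succ

theorem rn_fresh (N : ℕ) (c p : P) (h : p ≠ c) :
    (tmN N p).subst (rn N c) = (tmN N p).subst (fun l => .var l.succ) := by
  unfold tmN
  split_ifs with h1
  · show rn N c _ = _
    unfold rn
    rw [if_neg (fun h2 => h (pairP_inj h2))]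
    rfl
  · rfl

theorem rn_self (N : ℕ) (c : P) (hN : Nat.pair (ofLex c).1 (ofLex c).2 < N) :
    (tmN N c).subst (rn N c) = .var 0 := by
  rw [tmN_lt N c hN]
  show rn N c _ = _
  unfold rn
  rw [if_pos rfl]

theorem at_fresh (N : ℕ) (c : P) (x : PS) (h : Fresh c x) :
    (x.at N).subst (rn N c) = (x.at N).sh := by
  unfold PS.at Fm.sh
  rw [Fm.subst_comp, Fm.subst_comp]
  congr 1
  funext i
  exact rn_fresh N c _ (h i)

theorem at_cns (N : ℕ) (c : P) (hN : Nat.pair (ofLex c).1 (ofLex c).2 < N) {n : ℕ}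
    (φ : Fm (n + 1)) (v : Fin n → P) (h : ∀ i, v i ≠ c) :
    ((⟨n + 1, φ, cns c v⟩ : PS).at N).subst (rn N c) =
      φ.subst (up (fun i => tmN N (v i))) := by
  unfold PS.at
  rw [Fm.subst_comp]
  congr 1
  funext i
  refine Fin.cases ?_ (fun j => ?_) i
  · exact rn_self N c hN
  · exact rn_fresh N c _ (h j)

theorem map_fresh (N : ℕ) (c : P) (L : List PS) (h : ∀ x ∈ L, Fresh c x) :
    (L.map (PS.at N)).map (fun γ => γ.subst (rn N c)) = (L.map (PS.at N)).map Fm.sh := by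
  rw [List.map_map, List.map_map]
  exact List.map_congr_left fun x hx => at_fresh N c x (h x hx)

theorem Cn.allI {Θ : Set PS} {n : ℕ} {φ : Fm (n + 1)} {v : Fin n → P} (c : P)
    (hΘ : ∀ x ∈ Θ, Fresh c x) (hv : ∀ i, v i ≠ c) (h : Cn Θ ⟨n + 1, φ, cns c v⟩) :
    Cn Θ ⟨n, .all φ, v⟩ := by
  obtain ⟨L, hL, N0, h⟩ := h
  refine ⟨L, hL, max N0 (Nat.pair (ofLex c).1 (ofLex c).2 + 1), fun N hN => ?_⟩
  have hN1 : Nat.pair (ofLex c).1 (ofLex c).2 < N := (le_max_right _ _).trans hN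
  have h1 := (h N ((le_max_left _ _).trans hN)).subst (rn N c)
  rw [map_fresh N c L (fun x hx => hΘ x (hL x hx)), at_cns N c hN1 φ v hv] at h1
  exact .allI h1

theorem Cn.exE {Θ : Set PS} {n : ℕ} {φ : Fm (n + 1)} {v : Fin n → P} {b : PS} (c : P)
    (hΘ : ∀ x ∈ Θ, Fresh c x) (hv : ∀ i, v i ≠ c) (hb : Fresh c b) (h0 : Cn Θ ⟨n, .ex φ, v⟩)
    (h : Cn (insert ⟨n + 1, φ, cns c v⟩ Θ) b) : Cn Θ b := by
  obtain ⟨L0, hL0, N0, h0⟩ := h0
  obtain ⟨L1, hL1, N1, h1⟩ := Cn.insert_iff.1 h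
  refine ⟨L0 ++ L1, ?_, max (max N0 N1) (Nat.pair (ofLex c).1 (ofLex c).2 + 1), fun N hN => ?_⟩
  · intro x hx
    rcases List.mem_append.1 hx with h | h
    · exact hL0 x h
    · exact hL1 x h
  have hN1 : Nat.pair (ofLex c).1 (ofLex c).2 < N := (le_max_right _ _).trans hN
  have k0 := h0 N (((le_max_left _ _).trans (le_max_left _ _)).trans hN)
  have k1 := (h1 N (((le_max_right _ _).trans (le_max_left _ _)).trans hN)).subst (rn N c)
  rw [List.map_cons, List.map_cons, map_fresh N c L1 (fun x hx => hΘ x (hL1 x hx)),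
    at_cns N c hN1 φ v hv, at_fresh N c b hb] at k1
  refine .exE (φ := φ.subst (up (fun i => tmN N (v i)))) ?_ ?_
  · refine k0.weak ?_
    rw [List.map_append]
    exact List.subset_append_left _ _
  · refine k1.weak (List.cons_subset_cons _ ?_)
    rw [List.map_append, List.map_append]
    exact List.subset_append_right _ _

theorem at_inst (N : ℕ) (c : P) {n : ℕ} (φ : Fm (n + 1)) (v : Fin n → P) :
    (φ.subst (up (fun i => tmN N (v i)))).inst (tmN N c) = (⟨n + 1, φ, cns c v⟩ : PS).at N := by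
  rw [Fm.up_inst]
  unfold PS.at
  congr 1
  funext i
  refine Fin.cases rfl (fun j => rfl) i

theorem Cn.allE {Θ : Set PS} {n : ℕ} {φ : Fm (n + 1)} {v : Fin n → P} (c : P)
    (h : Cn Θ ⟨n, .all φ, v⟩) : Cn Θ ⟨n + 1, φ, cns c v⟩ := by
  refine Cn.rule1 (fun N Γ h => ?_) h
  have := Prv.allE (tmN N c) h
  rwa [at_inst] at this

theorem Cn.exI {Θ : Set PS} {n : ℕ} {φ : Fm (n + 1)} {v : Fin n → P} (c : P)
    (h : Cn Θ ⟨n + 1, φ, cns c v⟩) : Cn Θ ⟨n, .ex φ, v⟩ := by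
  refine Cn.rule1 (fun N Γ h => ?_) h
  rw [← at_inst] at h
  exact .exI (tmN N c) h

/-- change of the context -/
theorem at_rename (N : ℕ) {n m : ℕ} (φ : Fm n) (r : Fin n → Fin m) (v : Fin m → P) :
    (⟨m, φ.subst (fun i => .var (r i)), v⟩ : PS).at N = (⟨n, φ, fun i => v (r i)⟩ : PS).at N := by
  unfold PS.at
  rw [Fm.subst_comp]
  rfl

theorem Cn.rename {Θ : Set PS} {n m : ℕ} {φ : Fm n} {r : Fin n → Fin m} {v : Fin m → P} :
    Cn Θ ⟨m, φ.subst (fun i => .var (r i)), v⟩ ↔ Cn Θ ⟨n, φ, fun i => v (r i)⟩ := by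
  constructor
  · refine Cn.rule1 fun N Γ h => ?_
    rwa [at_rename] at h
  · refine Cn.rule1 fun N Γ h => ?_
    rwa [at_rename]

/-- equality of parameters -/
def eqP (c d : P) : PS := ⟨2, .eq (.var 0) (.var 1), cns c (cns d (fun i => i.elim0))⟩

theorem eqP_at (N : ℕ) (c d : P) : (eqP c d).at N = .eq (tmN N c) (tmN N d) := rfl

theorem Cn.refl (Θ : Set PS) (c : P) : Cn Θ (eqP c c) :=
  ⟨[], by simp, 0, fun _ _ => .refl _⟩

theorem Cn.repl {Θ : Set PS} {n : ℕ} {φ : Fm n} {v w : Fin n → P} (he : ∀ i, eqP (v i) (w i) ∈ Θ)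
    (h : (⟨n, φ, v⟩ : PS) ∈ Θ) : Cn Θ ⟨n, φ, w⟩ := by
  refine ⟨⟨n, φ, v⟩ :: List.ofFn (fun i => eqP (v i) (w i)), ?_, 0, fun N _ => ?_⟩
  · intro x hx
    rcases List.mem_cons.1 hx with h1 | h1
    · rw [h1]; exact h
    · obtain ⟨i, rfl⟩ := (List.mem_ofFn' _ _).1 h1
      exact he i
  · refine .repl φ (fun i => tmN N (v i)) (fun i => tmN N (w i)) (fun i => .hyp ?_) (.hyp ?_)
    · rw [← eqP_at]
      exact List.mem_map_of_mem (List.mem_cons_of_mem _ ((List.mem_ofFn' _ _).2 ⟨i, rfl⟩))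
    · exact List.mem_map_of_mem List.mem_cons_self

end Pool.Agent.H872R3.KH
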