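import Pool.Agent.H872R3.LK.Cons

/-! There are countably many formulas. -/

set_option autoImplicit false

namespace Pool.Agent.H872R3.KH

/-- codes of terms -/
def Tm.code {n : ℕ} : Tm n → ℕ
  | .var i => Nat.pair 0 i
  | .zero => Nat.pair 1 0
  | .succ t => Nat.pair 2 t.code
  | .add t s => Nat.pair 3 (Nat.pair t.code s.code)
  | .mul t s => Nat.pair 4 (Nat.pair t.code s.code)

theorem Tm.code_inj {n : ℕ} (t : Tm n) : ∀ s : Tm n, t.code = s.code → t = s := by
  induction t with
  | var i =>
    intro s h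
    cases s <;> simp only [Tm.code, Nat.pair_eq_pair] at h
    case var j => rw [Fin.ext h.2]
    all_goals omega
  | zero =>
    intro s h
    cases s <;> simp only [Tm.code, Nat.pair_eq_pair] at h
    case zero => rfl
    all_goals omega
  | succ t ih =>
    intro s h
    cases s <;> simp only [Tm.code, Nat.pair_eq_pair] at h
    case succ s => rw [ih s h.2]
    all_goals omega
  | add t t' ih ih' =>
    intro s h
    cases s <;> simp only [Tm.code, Nat.pair_eq_pair] at h
    case add s s' => rw [ih s h.2.1, ih' s' h.2.2]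
    all_goals omega
  | mul t t' ih ih' =>
    intro s h
    cases s <;> simp only [Tm.code, Nat.pair_eq_pair] at h
    case mul s s' => rw [ih s h.2.1, ih' s' h.2.2]
    all_goals omega

/-- codes of formulas -/
def Fm.code : {n : ℕ} → Fm n → ℕ
  | _, .bot => Nat.pair 0 0
  | _, .eq t s => Nat.pair 1 (Nat.pair t.code s.code)
  | _, .and φ ψ => Nat.pair 2 (Nat.pair φ.code ψ.code)
  | _, .or φ ψ => Nat.pair 3 (Nat.pair φ.code ψ.code)
  | _, .imp φ ψ => Nat.pair 4 (Nat.pair φ.code ψ.code)
  | _, .all φ => Nat.pair 5 φ.code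
  | _, .ex φ => Nat.pair 6 φ.code

theorem Fm.code_inj {n : ℕ} (φ : Fm n) : ∀ ψ : Fm n, φ.code = ψ.code → φ = ψ := by
  induction φ with
  | bot =>
    intro ψ h
    cases ψ <;> simp only [Fm.code, Nat.pair_eq_pair] at h
    case bot => rfl
    all_goals omega
  | eq t s =>
    intro ψ h
    cases ψ <;> simp only [Fm.code, Nat.pair_eq_pair] at h
    case eq t' s' => rw [Tm.code_inj t t' h.2.1, Tm.code_inj s s' h.2.2]
    all_goals omega
  | and φ φ' ih ih' =>
    intro ψ h
    cases ψ <;> simp only [Fm.code, Nat.pair_eq_pair] at h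
    case and ψ ψ' => rw [ih ψ h.2.1, ih' ψ' h.2.2]
    all_goals omega
  | or φ φ' ih ih' =>
    intro ψ h
    cases ψ <;> simp only [Fm.code, Nat.pair_eq_pair] at h
    case or ψ ψ' => rw [ih ψ h.2.1, ih' ψ' h.2.2]
    all_goals omega
  | imp φ φ' ih ih' =>
    intro ψ h
    cases ψ <;> simp only [Fm.code, Nat.pair_eq_pair] at h
    case imp ψ ψ' => rw [ih ψ h.2.1, ih' ψ' h.2.2]
    all_goals omega
  | all φ ih =>
    intro ψ h
    cases ψ <;> simp only [Fm.code, Nat.pair_eq_pair] at h
    case all ψ => rw [ih ψ h.2]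
    all_goals omega
  | ex φ ih =>
    intro ψ h
    cases ψ <;> simp only [Fm.code, Nat.pair_eq_pair] at h
    case ex ψ => rw [ih ψ h.2]
    all_goals omega

instance (n : ℕ) : Countable (Fm n) := ⟨⟨Fm.code, fun φ ψ h => Fm.code_inj φ ψ h⟩⟩

instance : Countable P := inferInstanceAs (Countable (ℕ × ℕ))

instance : Countable PS := by
  have h : Function.Injective (fun x : PS => (⟨x.n, (x.φ, x.v)⟩ : Σ n, Fm n × (Fin n → P))) := by
    rintro ⟨n, φ, v⟩ ⟨n', φ', v'⟩ h
    simp only [Sigma.mk.injEq] at h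
    obtain ⟨rfl, h⟩ := h
    have h' := eq_of_heq h
    rw [Prod.mk.injEq] at h'
    rw [h'.1, h'.2]
  exact h.countable

end Pool.Agent.H872R3.KH
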