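import Pool.Agent.H872R3.LK.Nd

/-! Values of terms, and decidability of equality. -/

set_option autoImplicit false

namespace Pool.Agent.H872R3.KH

theorem Prv.symm {n : ℕ} {Γ : List (Fm n)} {t s : Tm n} (h : Prv Γ (.eq t s)) :
    Prv Γ (.eq s t) := by
  refine Prv.repl (.eq (.var 0) (.var 1)) (cns t (cns t (fun i => i.elim0)))
    (cns s (cns t (fun i => i.elim0))) (fun i => ?_) (.refl t)
  refine Fin.cases h (fun j => ?_) i
  refine Fin.cases (.refl t) (fun j => j.elim0) j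

theorem Prv.trans {n : ℕ} {Γ : List (Fm n)} {t s r : Tm n} (h : Prv Γ (.eq t s))
    (h' : Prv Γ (.eq s r)) : Prv Γ (.eq t r) := by
  refine Prv.repl (.eq (.var 0) (.var 1)) (cns t (cns s (fun i => i.elim0)))
    (cns t (cns r (fun i => i.elim0))) (fun i => ?_) h
  refine Fin.cases (.refl t) (fun j => ?_) i
  refine Fin.cases h' (fun j => j.elim0) j

theorem Prv.congr {n m : ℕ} {Γ : List (Fm n)} (t : Tm m) (σ τ : Fin m → Tm n)
    (h : ∀ i, Prv Γ (.eq (σ i) (τ i))) : Prv Γ (.eq (t.subst σ) (t.subst τ)) := by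
  -- the formula `t(x) = t(y)`
  have h1 := Prv.repl (Γ := Γ) (.eq (t.subst (fun i => .var (Fin.natAdd m i)))
    (t.subst (fun i => .var (Fin.castAdd m i)))) (Fin.append σ σ) (Fin.append τ σ) (fun i => by
      refine Fin.addCases (fun j => ?_) (fun j => ?_) i
      · rw [Fin.append_left, Fin.append_left]; exact h j
      · rw [Fin.append_right, Fin.append_right]; exact .refl _) (by
      simp only [Fm.subst, Tm.subst_comp, Tm.subst, Fin.append_right, Fin.append_left]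
      exact .refl _)
  simp only [Fm.subst, Tm.subst_comp, Tm.subst, Fin.append_right, Fin.append_left] at h1
  exact h1

/-- `c` is the value of `t` -/
def DenP {m : ℕ} (t : Tm m) (v : Fin m → P) (c : P) : PS :=
  ⟨m + 1, .eq (.var 0) (t.subst (fun l => .var l.succ)), cns c v⟩

theorem DenP_at (N : ℕ) {m : ℕ} (t : Tm m) (v : Fin m → P) (c : P) :
    (DenP t v c).at N = .eq (tmN N c) (t.subst (fun i => tmN N (v i))) := by
  have h : (t.subst (fun l => .var l.succ)).subst (fun i => tmN N (cns c v i)) =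
      t.subst (fun i => tmN N (v i)) := by
    rw [Tm.subst_comp]; rfl
  exact congrArg (Fm.eq (tmN N c)) h

namespace Nd
variable (k : Nd)

theorem of1 {a b : PS} (ha : a ∈ k.Θ) (hb : b.Lev k.n)
    (h : ∀ (N : ℕ) (Γ : List (Fm N)), Prv Γ (a.at N) → Prv Γ (b.at N)) : b ∈ k.Θ :=
  k.cl (Cn.rule1 h (Cn.mem ha)) hb

theorem of2 {a b c : PS} (ha : a ∈ k.Θ) (hb : b ∈ k.Θ) (hc : c.Lev k.n)
    (h : ∀ (N : ℕ) (Γ : List (Fm N)), Prv Γ (a.at N) → Prv Γ (b.at N) → Prv Γ (c.at N)) :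
    c ∈ k.Θ := k.cl (Cn.rule2 h (Cn.mem ha) (Cn.mem hb)) hc

theorem of0 {b : PS} (hb : b.Lev k.n) (h : ∀ (N : ℕ) (Γ : List (Fm N)), Prv Γ (b.at N)) :
    b ∈ k.Θ := k.cl ⟨[], by simp, 0, fun N _ => h N _⟩ hb

theorem den_ex {m : ℕ} (t : Tm m) (v : Fin m → P) (hv : ∀ i, (v i).lv ≤ k.n) :
    ∃ c : P, c.lv ≤ k.n ∧ DenP t v c ∈ k.Θ := by
  refine k.hen m _ v (k.of0 hv fun N Γ => ?_)
  have h : ((t.subst (fun l => .var l.succ)).subst (up fun i => tmN N (v i))).subst
      (fun i => Fin.cases (t.subst (fun i => tmN N (v i))) (fun j => .var j) i) =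
      t.subst (fun i => tmN N (v i)) := by
    rw [Tm.subst_comp, Tm.subst_comp]
    congr 1
    funext i
    show ((tmN N (v i)).subst (fun l => .var l.succ)).subst _ = tmN N (v i)
    rw [Tm.subst_comp]
    exact Tm.subst_id _
  refine Prv.exI (t.subst (fun i => tmN N (v i))) ?_
  have h2 : Prv Γ (.eq (t.subst (fun i => tmN N (v i)))
      (((t.subst (fun l => .var l.succ)).subst (up fun i => tmN N (v i))).subst
      (fun i => Fin.cases (t.subst (fun i => tmN N (v i))) (fun j => .var j) i))) := by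
    rw [h]; exact .refl _
  exact h2

/-- substitution of terms by their values -/
theorem subst_iff {m M : ℕ} (φ : Fm m) (σ : Fin m → Tm M) (w : Fin M → P) (v : Fin m → P)
    (hw : ∀ i, (w i).lv ≤ k.n) (hv : ∀ i, (v i).lv ≤ k.n) (h : ∀ i, DenP (σ i) w (v i) ∈ k.Θ) :
    (⟨M, φ.subst σ, w⟩ : PS) ∈ k.Θ ↔ (⟨m, φ, v⟩ : PS) ∈ k.Θ := by
  constructor
  · intro h1
    refine k.cl ⟨⟨M, φ.subst σ, w⟩ :: List.ofFn (fun i => DenP (σ i) w (v i)), ?_, 0,
      fun N _ => ?_⟩ hv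
    · intro x hx
      rcases List.mem_cons.1 hx with h2 | h2
      · rw [h2]; exact h1
      · obtain ⟨i, rfl⟩ := (List.mem_ofFn' _ _).1 h2
        exact h i
    · refine .repl φ (fun i => (σ i).subst (fun j => tmN N (w j))) (fun i => tmN N (v i))
        (fun i => Prv.symm (.hyp ?_)) ?_
      · rw [← DenP_at]
        exact List.mem_map_of_mem (List.mem_cons_of_mem _ ((List.mem_ofFn' _ _).2 ⟨i, rfl⟩))
      · have : (⟨M, φ.subst σ, w⟩ : PS).at N = φ.subst (fun i => (σ i).subst (fun j =>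
          tmN N (w j))) := Fm.subst_comp _ _ _
        rw [← this]
        exact .hyp (List.mem_map_of_mem List.mem_cons_self)
  · intro h1
    refine k.cl ⟨⟨m, φ, v⟩ :: List.ofFn (fun i => DenP (σ i) w (v i)), ?_, 0,
      fun N _ => ?_⟩ hw
    · intro x hx
      rcases List.mem_cons.1 hx with h2 | h2
      · rw [h2]; exact h1
      · obtain ⟨i, rfl⟩ := (List.mem_ofFn' _ _).1 h2
        exact h i
    · have : (⟨M, φ.subst σ, w⟩ : PS).at N = φ.subst (fun i => (σ i).subst (fun j =>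
          tmN N (w j))) := Fm.subst_comp _ _ _
      rw [this]
      refine .repl φ (fun i => tmN N (v i)) (fun i => (σ i).subst (fun j => tmN N (w j)))
        (fun i => .hyp ?_) (.hyp (List.mem_map_of_mem List.mem_cons_self))
      rw [← DenP_at]
      exact List.mem_map_of_mem (List.mem_cons_of_mem _ ((List.mem_ofFn' _ _).2 ⟨i, rfl⟩))

theorem closure_inst {m : ℕ} (ψ : Fm m) (h : (⟨0, closure m ψ, fun i => i.elim0⟩ : PS) ∈ k.Θ)
    (v : Fin m → P) (hv : ∀ i, (v i).lv ≤ k.n) : (⟨m, ψ, v⟩ : PS) ∈ k.Θ := by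
  induction m with
  | zero =>
    have : v = fun i => i.elim0 := funext fun i => i.elim0
    rw [this]; exact h
  | succ m ih =>
    have h1 := ih (.all ψ) h (fun i => v i.succ) (fun i => hv _)
    have h2 := k.all_inst h1 (v 0) (hv 0)
    have : cns (v 0) (fun i => v i.succ) = v := by
      funext i
      refine Fin.cases rfl (fun j => rfl) i
    rwa [this] at h2

/-- induction -/
theorem ind {m : ℕ} (φ : Fm (m + 1)) (v : Fin m → P) (hv : ∀ i, (v i).lv ≤ k.n)
    (h0 : (⟨m, atZero φ, v⟩ : PS) ∈ k.Θ)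
    (hs : ∀ l, k ≤ l → ∀ c : P, c.lv ≤ l.n → (⟨m + 1, φ, cns c v⟩ : PS) ∈ l.Θ →
      (⟨m + 1, atSucc φ, cns c v⟩ : PS) ∈ l.Θ) : (⟨m, .all φ, v⟩ : PS) ∈ k.Θ := by
  refine k.imp_mp (k.closure_inst _ (k.ha _ (Ax.ind m φ)) v hv) (k.and_iff.2 ⟨h0, ?_⟩)
  refine (k.all_iff hv).2 fun l hkl c hc => (l.imp_iff ?_).2 fun l' hl' h => ?_
  · exact cns_lv hc (fun i => (hv i).trans hkl.1)
  · exact hs l' (hkl.trans hl') c (hc.trans hl'.1) h

theorem e0_lv : ∀ i : Fin 0, ((fun i : Fin 0 => (i.elim0 : P)) i).lv ≤ k.n := fun i => i.elim0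

theorem dec_zero (c : P) (hc : c.lv ≤ k.n) :
    (⟨1, .or (.eq (.var 0) .zero) (.imp (.eq (.var 0) .zero) .bot), cns c (fun i => i.elim0)⟩ : PS) ∈
      k.Θ := by
  refine k.all_inst (φ := .or (.eq (.var 0) .zero) (.imp (.eq (.var 0) .zero) .bot))
    (v := fun i => i.elim0) ?_ c hc
  refine k.ind _ _ k.e0_lv ?_ ?_
  · refine (k.or_iff k.e0_lv).2 (Or.inl (k.of0 k.e0_lv fun N Γ => .refl _))
  · intro l hkl c hc _
    refine (l.or_iff (cns_lv hc l.e0_lv)).2 (Or.inr ?_)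
    exact l.all_inst (l.ha _ Ax.succ_ne) c hc

theorem dec_all : (⟨0, .all (.all (.or (.eq (.var 1) (.var 0)) (.imp (.eq (.var 1) (.var 0)) .bot))),
    fun i => i.elim0⟩ : PS) ∈ k.Θ := by
  refine k.ind _ _ k.e0_lv ?_ ?_
  · refine (k.all_iff k.e0_lv).2 fun l hkl c hc => ?_
    refine (l.or_iff (cns_lv hc l.e0_lv)).2 ?_
    rcases (l.or_iff (cns_lv hc l.e0_lv)).1 (l.dec_zero c hc) with h | h
    · left
      exact l.of1 h (cns_lv hc l.e0_lv) fun N Γ h => Prv.symm h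
    · right
      refine (l.imp_iff (cns_lv hc l.e0_lv)).2 fun l' hl' h' => ?_
      refine l'.imp_mp (hl'.2 h) ?_
      exact l'.of1 h' (cns_lv (hc.trans hl'.1) l'.e0_lv) fun N Γ h => Prv.symm h
  · intro l hkl c hc hind
    refine l.ind (m := 1) (.or (.eq (.succ (.var 1)) (.var 0))
      (.imp (.eq (.succ (.var 1)) (.var 0)) .bot)) _ (cns_lv hc l.e0_lv) ?_ ?_
    · refine (l.or_iff (cns_lv hc l.e0_lv)).2 (Or.inr ?_)
      exact l.all_inst (l.ha _ Ax.succ_ne) c hc
    · intro l' hl' d hd _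
      have hcd := cns_lv hd (cns_lv (hc.trans hl'.1) l'.e0_lv)
      refine (l'.or_iff hcd).2 ?_
      rcases (l'.or_iff hcd).1 (l'.all_inst (hl'.2 hind) d hd) with h | h
      · left
        refine l'.of1 h hcd fun N Γ h => ?_
        exact Prv.congr (m := 1) (.succ (.var 0)) (fun _ => tmN N c) (fun _ => tmN N d)
          (fun _ => h)
      · right
        refine (l'.imp_iff hcd).2 fun l'' hl'' h' => ?_
        refine l''.imp_mp (hl''.2 h) ?_
        refine l''.imp_mp ?_ h'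
        exact l''.all_inst (l''.all_inst (l''.ha _ Ax.succ_inj) c
          ((hc.trans hl'.1).trans hl''.1)) d (hd.trans hl''.1)

/-- decidability of equality -/
theorem dec (c d : P) (hc : c.lv ≤ k.n) (hd : d.lv ≤ k.n) :
    eqP c d ∈ k.Θ ∨ ∀ l, k ≤ l → eqP c d ∉ l.Θ := by
  have hcd := cns_lv hd (cns_lv hc k.e0_lv)
  have h := k.all_inst (k.all_inst k.dec_all c hc) d hd
  rcases (k.or_iff hcd).1 h with h | h
  · left
    exact k.of1 h (cns_lv hc (cns_lv hd k.e0_lv)) fun N Γ h => h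
  · right
    intro l hkl h'
    refine l.bot _ (l.imp_mp (hkl.2 h) ?_)
    exact l.of1 h' (fun i => (hcd i).trans hkl.1) fun N Γ h => h

end Nd

end Pool.Agent.H872R3.KH
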