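import Pool.Agent.H872R3.LK.Subst
import Pool.Agent.H872R3.KH.HA

/-! Soundness of intuitionistic logic for Kripke models. -/

set_option autoImplicit false

namespace Pool.Agent.H872R3.KH

namespace KModel

variable (W : KModel)

/-- the assignment seen from a later node -/
def mv {k l : W.K} (h : k ≤ l) {n : ℕ} (v : Fin n → W.dom k) : Fin n → W.dom l :=
  fun i => Set.inclusion (W.dom_mono h) (v i)

theorem mv_cns {k l : W.K} (h : k ≤ l) {n : ℕ} (a : W.dom k) (v : Fin n → W.dom k) :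
    W.mv h (cns a v) = cns (Set.inclusion (W.dom_mono h) a) (W.mv h v) := by
  funext i
  refine Fin.cases rfl (fun j => rfl) i

theorem ev_mv {k l : W.K} (h : k ≤ l) {n : ℕ} (t : Tm n) (v : Fin n → W.dom k) :
    t.ev (W.str l) (W.mv h v) = Set.inclusion (W.dom_mono h) (t.ev (W.str k) v) := by
  have h1 : ∀ (m : W.K) (a : W.dom m) (u : Fin n → W.dom m),
      (t.subst (fun l => .var l.succ)).ev (W.str m) (cns a u) = t.ev (W.str m) u := by
    intro m a u
    rw [Tm.ev_subst]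
    rfl
  have h2 := W.atomic h (t.subst (fun l => .var l.succ)) (.var 0) (cns (t.ev (W.str k) v) v)
    (h1 _ _ _)
  have h3 : (fun i => Set.inclusion (W.dom_mono h)
      ((cns (t.ev (W.str k) v) v : Fin (n + 1) → W.dom k) i)) =
      cns (Set.inclusion (W.dom_mono h) (t.ev (W.str k) v)) (W.mv h v) := W.mv_cns h _ _
  rw [h3, h1] at h2
  exact h2

theorem forces_mono {n : ℕ} (φ : Fm n) : ∀ {k l : W.K} (h : k ≤ l) (v : Fin n → W.dom k),
    W.Forces φ k v → W.Forces φ l (W.mv h v) := by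
  induction φ with
  | bot => intro k l h v hf; exact hf
  | eq t s =>
    intro k l h v hf
    exact W.atomic h t s v hf
  | and φ ψ ihφ ihψ => intro k l h v hf; exact ⟨ihφ h v hf.1, ihψ h v hf.2⟩
  | or φ ψ ihφ ihψ =>
    intro k l h v hf
    rcases hf with hf | hf
    · exact Or.inl (ihφ h v hf)
    · exact Or.inr (ihψ h v hf)
  | imp φ ψ ihφ ihψ => intro k l h v hf m hm h'; exact hf m (h.trans hm) h'
  | all φ ih => intro k l h v hf m hm a; exact hf m (h.trans hm) a
  | ex φ ih =>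
    intro k l h v hf
    obtain ⟨a, ha⟩ := hf
    refine ⟨Set.inclusion (W.dom_mono h) a, ?_⟩
    rw [← mv_cns]
    exact ih h _ ha

theorem forces_subst {n : ℕ} (φ : Fm n) : ∀ {m : ℕ} (σ : Fin n → Tm m) (k : W.K)
    (v : Fin m → W.dom k),
    W.Forces (φ.subst σ) k v ↔ W.Forces φ k (fun i => (σ i).ev (W.str k) v) := by
  have hev : ∀ {n m : ℕ} (σ : Fin n → Tm m) {k l : W.K} (h : k ≤ l) (v : Fin m → W.dom k),
      (fun i => Set.inclusion (W.dom_mono h) ((σ i).ev (W.str k) v)) =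
        fun i => (σ i).ev (W.str l) (fun j => Set.inclusion (W.dom_mono h) (v j)) := by
    intro n m σ k l h v
    funext i
    exact (W.ev_mv h (σ i) v).symm
  induction φ with
  | bot => intro m σ k v; rfl
  | eq t s =>
    intro m σ k v
    simp only [Fm.subst, Forces, Tm.ev_subst]
  | and φ ψ ihφ ihψ =>
    intro m σ k v
    simp only [Fm.subst, Forces, ihφ, ihψ]
  | or φ ψ ihφ ihψ =>
    intro m σ k v
    simp only [Fm.subst, Forces, ihφ, ihψ]
  | imp φ ψ ihφ ihψ =>
    intro m σ k v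
    simp only [Fm.subst, Forces, ihφ, ihψ]
    refine forall_congr' fun l => forall_congr' fun h => ?_
    rw [hev σ h v]
  | all φ ih =>
    intro m σ k v
    simp only [Fm.subst, Forces, ih, up_ev]
    refine forall_congr' fun l => forall_congr' fun h => ?_
    rw [hev σ h v]
  | ex φ ih =>
    intro m σ k v
    simp only [Fm.subst, Forces, ih, up_ev]

theorem inst_fun {k : W.K} {n : ℕ} (t : Tm n) (v : Fin n → W.dom k) :
    (fun i : Fin (n + 1) => (Fin.cases (motive := fun _ => Tm n) t (fun j => .var j) i).ev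
      (W.str k) v) = cns (t.ev (W.str k) v) v := by
  funext i
  refine Fin.cases rfl (fun j => rfl) i

theorem forces_inst {n : ℕ} (φ : Fm (n + 1)) (t : Tm n) (k : W.K) (v : Fin n → W.dom k) :
    W.Forces (φ.inst t) k v ↔ W.Forces φ k (cns (t.ev (W.str k) v) v) := by
  unfold Fm.inst
  rw [forces_subst, inst_fun]

theorem forces_sh {n : ℕ} (φ : Fm n) (k : W.K) (a : W.dom k) (v : Fin n → W.dom k) :
    W.Forces φ.sh k (cns a v) ↔ W.Forces φ k v := by
  unfold Fm.sh
  rw [forces_subst]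
  rfl

theorem sound {n : ℕ} {Γ : List (Fm n)} {φ : Fm n} (h : Prv Γ φ) :
    ∀ (k : W.K) (v : Fin n → W.dom k), (∀ γ ∈ Γ, W.Forces γ k v) → W.Forces φ k v := by
  induction h with
  | hyp h => intro k v hΓ; exact hΓ _ h
  | botE _ ih => intro k v hΓ; exact (ih k v hΓ).elim
  | andI _ _ ih1 ih2 => intro k v hΓ; exact ⟨ih1 k v hΓ, ih2 k v hΓ⟩
  | andE₁ _ ih => intro k v hΓ; exact (ih k v hΓ).1
  | andE₂ _ ih => intro k v hΓ; exact (ih k v hΓ).2
  | orI₁ _ ih => intro k v hΓ; exact Or.inl (ih k v hΓ)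
  | orI₂ _ ih => intro k v hΓ; exact Or.inr (ih k v hΓ)
  | orE _ _ _ ih1 ih2 ih3 =>
    intro k v hΓ
    rcases ih1 k v hΓ with h | h
    · exact ih2 k v (List.forall_mem_cons.2 ⟨h, hΓ⟩)
    · exact ih3 k v (List.forall_mem_cons.2 ⟨h, hΓ⟩)
  | impI _ ih =>
    intro k v hΓ l hl h
    exact ih l _ (List.forall_mem_cons.2 ⟨h, fun γ hγ => W.forces_mono γ hl v (hΓ γ hγ)⟩)
  | impE _ _ ih1 ih2 => intro k v hΓ; exact ih1 k v hΓ k le_rfl (ih2 k v hΓ)
  | allI _ ih =>
    intro k v hΓ l hl a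
    refine ih l _ fun γ hγ => ?_
    obtain ⟨δ, hδ, rfl⟩ := List.mem_map.1 hγ
    exact (W.forces_sh δ l a _).2 (W.forces_mono δ hl v (hΓ δ hδ))
  | allE t _ ih =>
    intro k v hΓ
    exact (W.forces_inst _ t k v).2 (ih k v hΓ k le_rfl _)
  | exI t _ ih =>
    intro k v hΓ
    exact ⟨_, (W.forces_inst _ t k v).1 (ih k v hΓ)⟩
  | exE _ _ ih1 ih2 =>
    intro k v hΓ
    obtain ⟨a, ha⟩ := ih1 k v hΓ
    refine (W.forces_sh _ k a v).1 (ih2 k _ (List.forall_mem_cons.2 ⟨ha, fun γ hγ => ?_⟩))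
    obtain ⟨δ, hδ, rfl⟩ := List.mem_map.1 hγ
    exact (W.forces_sh δ k a _).2 (hΓ δ hδ)
  | refl t => intro k v _; exact rfl
  | repl φ σ τ _ _ ih1 ih2 =>
    intro k v hΓ
    have h1 : (fun i => (σ i).ev (W.str k) v) = fun i => (τ i).ev (W.str k) v :=
      funext fun i => ih1 i k v hΓ
    have h2 := ih2 k v hΓ
    rw [forces_subst, h1] at h2
    rw [forces_subst]
    exact h2

/-- Theorems of Heyting arithmetic are forced in all Kripke models of Heyting arithmetic. -/
theorem sound_HA {φ : Fm 0} (h : HAProves φ) (hW : W.ForcesHA) (k : W.K) :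
    W.Forces φ k (fun i => i.elim0) := by
  obtain ⟨L, hL, h⟩ := h
  exact W.sound h k _ fun γ hγ => hW k γ (hL γ hγ)

end KModel

end Pool.Agent.H872R3.KH
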