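import Pool.Agent.H872R3.LK.Loc
import Pool.Agent.H872R3.LK.Sound

/-! Completeness of Heyting arithmetic and its extensions for locally PA Kripke models. -/

set_option autoImplicit false

namespace Pool.Agent.H872R3.KH

/-- `T ⊢ φ`: the sentence `φ` is derivable in intuitionistic logic from finitely many members of
the set `T` of sentences. -/
def Proves (T : Set (Fm 0)) (φ : Fm 0) : Prop := ∃ L : List (Fm 0), (∀ α ∈ L, α ∈ T) ∧ Prv L φ

/-- the sentences of `T` as formulas with parameters -/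
def axP (T : Set (Fm 0)) : Set PS := {x | ∃ α ∈ T, x = ⟨0, α, fun i => i.elim0⟩}

theorem at_zero_subst (N : ℕ) (α : Fm 0) (v : Fin 0 → P) :
    ((⟨0, α, v⟩ : PS).at N).subst (fun _ => (.zero : Tm 0)) = α := by
  show (α.subst _).subst _ = α
  rw [Fm.subst_comp]
  conv_rhs => rw [← Fm.subst_id α]
  congr 1
  funext i
  exact i.elim0

theorem not_cn (T : Set (Fm 0)) (φ : Fm 0) (h : ¬ Proves T φ) :
    ¬ Cn (axP T) ⟨0, φ, fun i => i.elim0⟩ := by
  rintro ⟨L, hL, N0, hder⟩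
  apply h
  have h1 := (hder N0 le_rfl).subst (fun _ => (.zero : Tm 0))
  rw [at_zero_subst] at h1
  refine ⟨_, ?_, h1⟩
  intro γ hγ
  rw [List.map_map] at hγ
  obtain ⟨x, hx, rfl⟩ := List.mem_map.1 hγ
  obtain ⟨α, hα, rfl⟩ := hL x hx
  show ((⟨0, α, _⟩ : PS).at N0).subst (fun _ => (.zero : Tm 0)) ∈ T
  rw [at_zero_subst]
  exact hα

/-- nodes containing `T` -/
def NdT (T : Set (Fm 0)) : Type := {l : Nd // ∀ α ∈ T, (⟨0, α, fun i => i.elim0⟩ : PS) ∈ l.Θ}

instance (T : Set (Fm 0)) : PartialOrder (NdT T) :=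
  inferInstanceAs (PartialOrder {l : Nd // _})

/-- nodes containing `T` and avoiding `φ` -/
theorem exists_ndT (T : Set (Fm 0)) (hT : ∀ α, Ax α → α ∈ T) (φ : Fm 0) (h : ¬ Proves T φ) :
    ∃ k : NdT T, (⟨0, φ, fun i => i.elim0⟩ : PS) ∉ k.1.Θ := by
  obtain ⟨Θ, h1, h2, h3, h4, h5⟩ := henkin 0 (axP T) ⟨0, φ, fun i => i.elim0⟩
    (by rintro x ⟨α, _, rfl⟩ i; exact i.elim0) (not_cn T φ h)
  exact ⟨⟨⟨1, Θ, h2, ⟨⟨0, φ, fun i => i.elim0⟩, fun i => i.elim0, h3, h4⟩, h5,
    fun α hα => h1 ⟨α, hT α hα, rfl⟩⟩, fun α hα => h1 ⟨α, hα, rfl⟩⟩, fun h6 => h3 (Cn.mem h6)⟩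

/-- the canonical model of `T` -/
noncomputable def canT (T : Set (Fm 0)) [h : Nonempty (NdT T)] : KModel :=
  { K := NdT T
    nonempty := h
    U := P
    dom := fun k => Nd.dom k.1
    str := fun k => Nd.str k.1
    dom_mono := fun {k l} h => Nd.dom_mono (k := k.1) (l := l.1) h
    atomic := by
      intro k l h n t s v e
      rw [Nd.eq_iff] at e ⊢
      exact h.2 e }

theorem canT_iff (T : Set (Fm 0)) [Nonempty Nd] [Nonempty (NdT T)] {m : ℕ} (φ : Fm m) :
    ∀ (k : NdT T) (u : Fin m → Nd.dom k.1), (canT T).Forces φ k u ↔ can.Forces φ k.1 u := by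
  induction φ with
  | bot => intro k u; exact Iff.rfl
  | eq t s => intro k u; exact Iff.rfl
  | and φ ψ ihφ ihψ => intro k u; exact and_congr (ihφ k u) (ihψ k u)
  | or φ ψ ihφ ihψ => intro k u; exact or_congr (ihφ k u) (ihψ k u)
  | imp φ ψ ihφ ihψ =>
    intro k u
    constructor
    · intro h l hl hφ
      let l' : NdT T := ⟨l, fun α hα => hl.2 (k.2 α hα)⟩
      exact (ihψ l' _).1 (h l' hl ((ihφ l' _).2 hφ))
    · intro h l hl hφ
      exact (ihψ l _).2 (h l.1 hl ((ihφ l _).1 hφ))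
  | all φ ih =>
    intro k u
    constructor
    · intro h l hl a
      let l' : NdT T := ⟨l, fun α hα => hl.2 (k.2 α hα)⟩
      exact (ih l' _).1 (h l' hl a)
    · intro h l hl a
      exact (ih l _).2 (h l.1 hl a)
  | ex φ ih =>
    intro k u
    exact exists_congr fun a => ih k _

theorem canT_sent (T : Set (Fm 0)) [Nonempty (NdT T)] (φ : Fm 0) (k : NdT T) :
    (canT T).Forces φ k (fun i => i.elim0) ↔ (⟨0, φ, fun i => i.elim0⟩ : PS) ∈ k.1.Θ := by
  have : Nonempty Nd := ⟨k.1⟩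
  have e : (fun i => ((fun i : Fin 0 => (i.elim0 : Nd.dom k.1)) i).1) =
      (fun i : Fin 0 => (i.elim0 : P)) := funext fun i => i.elim0
  have h := (canT_iff T φ k (fun i => i.elim0)).trans (can_truth φ k.1 (fun i => i.elim0))
  rw [e] at h
  exact h

/-- a theory extending Heyting arithmetic which does not prove `⊥` has a locally PA Kripke model
forcing exactly the theorems of the theory -/
theorem universal (T : Set (Fm 0)) (hT : ∀ α, Ax α → α ∈ T) (hc : ¬ Proves T .bot) :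
    ∃ W : KModel, (∀ k : W.K, ModelsPA (W.str k)) ∧
      ∀ φ : Fm 0, (∀ k : W.K, W.Forces φ k (fun i => i.elim0)) ↔ Proves T φ := by
  obtain ⟨k0, -⟩ := exists_ndT T hT _ hc
  have : Nonempty (NdT T) := ⟨k0⟩
  refine ⟨canT T, fun k => Nd.locPA k.1, fun φ => ⟨fun h => ?_, fun h k => ?_⟩⟩
  · by_contra hn
    obtain ⟨k, hk⟩ := exists_ndT T hT φ hn
    exact hk ((canT_sent T φ k).1 (h k))
  · obtain ⟨L, hL, h⟩ := h
    refine (canT T).sound h k _ fun γ hγ => ?_
    exact (canT_sent T γ k).2 (k.2 γ (hL γ hγ))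

end Pool.Agent.H872R3.KH
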