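import Pool.Agent.H872R3.LK.Count

/-! Maximal Henkin theories avoiding a formula. -/

set_option autoImplicit false

namespace Pool.Agent.H872R3.KH

/-- the parameters have level at most `n` -/
def PS.Lev (n : ℕ) (x : PS) : Prop := ∀ i, (x.v i).lv ≤ n

theorem exists_bound (A : List PS) : ∃ b : ℕ, ∀ x ∈ A, ∀ i, (ofLex (x.v i)).2 < b := by
  induction A with
  | nil => exact ⟨0, by simp⟩
  | cons a A ih =>
    obtain ⟨b, hb⟩ := ih
    refine ⟨b + ∑ i, ((ofLex (a.v i)).2 + 1), fun x hx i => ?_⟩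
    rcases List.mem_cons.1 hx with h | h
    · subst h
      have : (ofLex (x.v i)).2 + 1 ≤ ∑ i, ((ofLex (x.v i)).2 + 1) :=
        Finset.single_le_sum (f := fun i => (ofLex (x.v i)).2 + 1) (fun _ _ => Nat.zero_le _)
          (Finset.mem_univ i)
      omega
    · have := hb x h i
      omega

theorem cns_lv {n m : ℕ} {c : P} {v : Fin m → P} (hc : c.lv ≤ n) (hv : ∀ i, (v i).lv ≤ n) :
    ∀ i, (cns c v i).lv ≤ n := by
  intro i
  refine Fin.cases hc (fun j => hv j) i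

theorem step (n : ℕ) (Γ : Set PS) (χ : PS) (hΓ : ∀ x ∈ Γ, x.Lev n) (A : List PS)
    (hA : ∀ x ∈ A, x.Lev (n + 1)) (h : ¬ Cn (Γ ∪ {y | y ∈ A}) χ) (x : PS) (hx : x.Lev (n + 1)) :
    ∃ A' : List PS, (∀ x ∈ A', x.Lev (n + 1)) ∧ ¬ Cn (Γ ∪ {y | y ∈ A'}) χ ∧ A ⊆ A' ∧
      (Cn (insert x (Γ ∪ {y | y ∈ A})) χ ∨ x ∈ A' ∧
        ∀ (m : ℕ) (φ : Fm (m + 1)) (v : Fin m → P), x = ⟨m, .ex φ, v⟩ →
          ∃ c : P, c.lv ≤ n + 1 ∧ (⟨m + 1, φ, cns c v⟩ : PS) ∈ A') := by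
  by_cases hcn : Cn (insert x (Γ ∪ {y | y ∈ A})) χ
  · exact ⟨A, hA, h, List.Subset.refl A, Or.inl hcn⟩
  have hxA : Γ ∪ {y | y ∈ x :: A} = insert x (Γ ∪ {y | y ∈ A}) := by
    ext y
    simp only [Set.mem_union, Set.mem_ofPred_eq, List.mem_cons, Set.mem_insert_iff]
    tauto
  by_cases hex : ∃ (m : ℕ) (φ : Fm (m + 1)) (v : Fin m → P), x = ⟨m, .ex φ, v⟩
  · obtain ⟨m, φ, v, rfl⟩ := hex
    obtain ⟨b, hb⟩ := exists_bound (χ :: ⟨m, .ex φ, v⟩ :: A)
    let c : P := toLex (n + 1, b)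
    have hclv : c.lv ≤ n + 1 := le_rfl
    have fr : ∀ y : PS, (∀ i, (ofLex (y.v i)).2 < b) → Fresh c y := by
      intro y hy i hc
      have := hy i
      rw [hc] at this
      exact lt_irrefl _ this
    have frΓ : ∀ y ∈ Γ, Fresh c y := by
      intro y hy i hc
      have := hΓ y hy i
      rw [hc] at this
      exact absurd this (by show ¬ n + 1 ≤ n; omega)
    refine ⟨⟨m + 1, φ, cns c v⟩ :: ⟨m, .ex φ, v⟩ :: A, ?_, ?_, ?_, Or.inr ⟨?_, ?_⟩⟩
    · intro y hy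
      rcases List.mem_cons.1 hy with h | h
      · rw [h]
        exact cns_lv hclv hx
      · rcases List.mem_cons.1 h with h | h
        · rw [h]; exact hx
        · exact hA y h
    · intro hc
      apply hcn
      refine Cn.exE (φ := φ) (v := v) c ?_ ?_ ?_ (Cn.mem (Set.mem_insert _ _)) (hc.mono ?_)
      · intro y hy
        rcases Set.mem_insert_iff.1 hy with h | h
        · rw [h]
          exact fr _ (hb _ (by simp))
        · rcases h with h | h
          · exact frΓ y h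
          · exact fr _ (hb _ (by simp only [List.mem_cons]; exact Or.inr (Or.inr h)))
      · exact fr ⟨m, .ex φ, v⟩ (hb _ (by simp))
      · exact fr _ (hb _ (by simp))
      · intro y hy
        simp only [Set.mem_union, Set.mem_ofPred_eq, List.mem_cons, Set.mem_insert_iff] at hy ⊢
        tauto
    · exact fun y hy => List.mem_cons_of_mem _ (List.mem_cons_of_mem _ hy)
    · exact List.mem_cons_of_mem _ List.mem_cons_self
    · intro m' φ' v' he
      injection he with h1 h2 h3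
      subst h1
      have h2' := eq_of_heq h2
      have h3' := eq_of_heq h3
      injection h2' with h4 h5
      subst h3'
      exact ⟨c, hclv, by rw [← h5]; exact List.mem_cons_self⟩
  · refine ⟨x :: A, ?_, by rw [hxA]; exact hcn, fun y hy => List.mem_cons_of_mem _ hy,
      Or.inr ⟨List.mem_cons_self, fun m φ v he => absurd ⟨m, φ, v, he⟩ hex⟩⟩
    intro y hy
    rcases List.mem_cons.1 hy with h | h
    · rw [h]; exact hx
    · exact hA y h

theorem henkin (n : ℕ) (Γ : Set PS) (χ : PS) (hΓ : ∀ x ∈ Γ, x.Lev n)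
    (h : ¬ Cn Γ χ) : ∃ Θ : Set PS, Γ ⊆ Θ ∧ (∀ x ∈ Θ, x.Lev (n + 1)) ∧ ¬ Cn Θ χ ∧
      (∀ x : PS, x.Lev (n + 1) → x ∈ Θ ∨ Cn (insert x Θ) χ) ∧
      (∀ (m : ℕ) (φ : Fm (m + 1)) (v : Fin m → P), (⟨m, .ex φ, v⟩ : PS) ∈ Θ →
        ∃ c : P, c.lv ≤ n + 1 ∧ (⟨m + 1, φ, cns c v⟩ : PS) ∈ Θ) := by
  classical
  let X := {x : PS // x.Lev (n + 1)}
  have hX : Nonempty X := ⟨⟨0, .bot, fun i => i.elim0⟩, fun i => i.elim0⟩
  obtain ⟨e, he⟩ := exists_surjective_nat X
  let Y := {A : List PS // (∀ x ∈ A, x.Lev (n + 1)) ∧ ¬ Cn (Γ ∪ {y | y ∈ A}) χ}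
  have h0 : ¬ Cn (Γ ∪ {y | y ∈ ([] : List PS)}) χ := by
    have : Γ ∪ {y | y ∈ ([] : List PS)} = Γ := by ext y; simp
    rw [this]; exact h
  let y0 : Y := ⟨[], by simp, h0⟩
  have hstep : ∀ (A : Y) (s : ℕ), ∃ A' : Y, A.1 ⊆ A'.1 ∧
      (Cn (insert (e s).1 (Γ ∪ {y | y ∈ A.1})) χ ∨ (e s).1 ∈ A'.1 ∧
        ∀ (m : ℕ) (φ : Fm (m + 1)) (v : Fin m → P), (e s).1 = ⟨m, .ex φ, v⟩ →
          ∃ c : P, c.lv ≤ n + 1 ∧ (⟨m + 1, φ, cns c v⟩ : PS) ∈ A'.1) := by
    intro A s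
    obtain ⟨A', h1, h2, h3, h4⟩ := step n Γ χ hΓ A.1 A.2.1 A.2.2 (e s).1 (e s).2
    exact ⟨⟨A', h1, h2⟩, h3, h4⟩
  choose f hf1 hf2 using hstep
  let a : ℕ → Y := fun s => Nat.rec y0 (fun s A => f A s) s
  have ha : ∀ s, a (s + 1) = f (a s) s := fun s => rfl
  have hmono : ∀ s t, s ≤ t → (a s).1 ⊆ (a t).1 := by
    intro s t hst
    induction t, hst using Nat.le_induction with
    | base => exact List.Subset.refl _
    | succ t _ ih =>
      rw [ha]
      exact List.Subset.trans ih (hf1 _ _)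
  let Θ : Set PS := Γ ∪ {x | ∃ s, x ∈ (a s).1}
  have hsub : ∀ s, Γ ∪ {y | y ∈ (a s).1} ⊆ Θ := by
    intro s y hy
    rcases hy with h | h
    · exact Or.inl h
    · exact Or.inr ⟨s, h⟩
  have hlev : ∀ x ∈ Θ, x.Lev (n + 1) := by
    rintro x (hx | ⟨s, hs⟩)
    · exact fun i => (hΓ x hx i).trans (Nat.le_succ n)
    · exact (a s).2.1 x hs
  have havoid : ¬ Cn Θ χ := by
    rintro ⟨L, hL, hder⟩
    have : ∃ s, ∀ x ∈ L, x ∈ Γ ∪ {y | y ∈ (a s).1} := by
      clear hder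
      induction L with
      | nil => exact ⟨0, by simp⟩
      | cons x L ih =>
        obtain ⟨s, hs⟩ := ih (fun y hy => hL y (List.mem_cons_of_mem _ hy))
        rcases hL x List.mem_cons_self with hx | ⟨t, ht⟩
        · refine ⟨s, fun y hy => ?_⟩
          rcases List.mem_cons.1 hy with h | h
          · rw [h]; exact Or.inl hx
          · exact hs y h
        · refine ⟨max s t, fun y hy => ?_⟩
          rcases List.mem_cons.1 hy with h | h
          · rw [h]; exact Or.inr (hmono _ _ (le_max_right _ _) ht)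
          · rcases hs y h with h | h
            · exact Or.inl h
            · exact Or.inr (hmono _ _ (le_max_left _ _) h)
    obtain ⟨s, hs⟩ := this
    exact (a s).2.2 ⟨L, hs, hder⟩
  refine ⟨Θ, Set.subset_union_left, hlev, havoid, ?_, ?_⟩
  · intro x hx
    obtain ⟨s, hs⟩ := he ⟨x, hx⟩
    have hsx : (e s).1 = x := by rw [hs]
    rcases hf2 (a s) s with h1 | ⟨h1, -⟩
    · right
      rw [hsx] at h1
      exact h1.mono (Set.insert_subset_insert (hsub s))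
    · left
      rw [hsx] at h1
      exact Or.inr ⟨s + 1, h1⟩
  · intro m φ v hx
    obtain ⟨s, hs⟩ := he ⟨_, hlev _ hx⟩
    have hsx : (e s).1 = ⟨m, .ex φ, v⟩ := by rw [hs]
    rcases hf2 (a s) s with h1 | ⟨-, h1⟩
    · exfalso
      rw [hsx] at h1
      apply havoid
      refine h1.mono ?_
      intro y hy
      rcases Set.mem_insert_iff.1 hy with h | h
      · rw [h]; exact hx
      · exact hsub s h
    · obtain ⟨c, hc, hc2⟩ := h1 m φ v hsx
      exact ⟨c, hc, Or.inr ⟨s + 1, hc2⟩⟩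

end Pool.Agent.H872R3.KH
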