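import Pool.Agent.H872R3.LK.Can
import Pool.Agent.H872R3.KH.HA

/-! The nodes of the canonical model are models of Peano arithmetic. -/

set_option autoImplicit false

namespace Pool.Agent.H872R3.KH

section
variable {K : ℕ} (χ : Fm K)

/-- `χ` in a larger context -/
def chi {M : ℕ} (r : Fin K → Fin M) : Fm M := χ.subst (fun i => .var (r i))

/-- double negation relative to `χ` -/
def dn {M : ℕ} (r : Fin K → Fin M) (ψ : Fm M) : Fm M := .imp (.imp ψ (chi χ r)) (chi χ r)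

/-- The translation of classical formulas relative to `χ`. -/
def tr : {M : ℕ} → (Fin K → Fin M) → Fm M → Fm M
  | _, r, .bot => chi χ r
  | _, r, .eq t s => dn χ r (.eq t s)
  | _, r, .and φ ψ => .and (tr r φ) (tr r ψ)
  | _, r, .or φ ψ => dn χ r (.or (tr r φ) (tr r ψ))
  | _, r, .imp φ ψ => .imp (tr r φ) (tr r ψ)
  | _, r, .all φ => .all (tr (fun i => (r i).succ) φ)
  | _, r, .ex φ => dn χ r (.ex (tr (fun i => (r i).succ) φ))

theorem chi_subst {M M' : ℕ} (r : Fin K → Fin M) (r' : Fin K → Fin M') (σ : Fin M → Tm M')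
    (h : ∀ i, σ (r i) = .var (r' i)) : (chi χ r).subst σ = chi χ r' := by
  unfold chi
  rw [Fm.subst_comp]
  congr 1
  funext i
  exact h i

theorem tr_subst {M : ℕ} (φ : Fm M) : ∀ {M' : ℕ} (r : Fin K → Fin M) (r' : Fin K → Fin M')
    (σ : Fin M → Tm M') (_ : ∀ i, σ (r i) = .var (r' i)),
    (tr χ r φ).subst σ = tr χ r' (φ.subst σ) := by
  induction φ with
  | bot => intro M' r r' σ h; exact chi_subst χ r r' σ h
  | eq t s =>
    intro M' r r' σ h
    simp only [tr, dn, Fm.subst, chi_subst χ r r' σ h]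
  | and φ ψ ihφ ihψ =>
    intro M' r r' σ h
    simp only [tr, Fm.subst, ihφ r r' σ h, ihψ r r' σ h]
  | or φ ψ ihφ ihψ =>
    intro M' r r' σ h
    simp only [tr, dn, Fm.subst, chi_subst χ r r' σ h, ihφ r r' σ h, ihψ r r' σ h]
  | imp φ ψ ihφ ihψ =>
    intro M' r r' σ h
    simp only [tr, Fm.subst, ihφ r r' σ h, ihψ r r' σ h]
  | all φ ih =>
    intro M' r r' σ h
    have := ih (fun i => (r i).succ) (fun i => (r' i).succ) (up σ) (fun i => by
      show (σ (r i)).subst (fun l => .var l.succ) = _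
      rw [h i]; rfl)
    simp only [tr, Fm.subst, this]
  | ex φ ih =>
    intro M' r r' σ h
    have := ih (fun i => (r i).succ) (fun i => (r' i).succ) (up σ) (fun i => by
      show (σ (r i)).subst (fun l => .var l.succ) = _
      rw [h i]; rfl)
    simp only [tr, dn, Fm.subst, chi_subst χ r r' σ h, this]

theorem tr_atZero {M : ℕ} (r : Fin K → Fin M) (φ : Fm (M + 1)) :
    tr χ r (atZero φ) = atZero (tr χ (fun i => (r i).succ) φ) :=
  (tr_subst χ φ (fun i => (r i).succ) r _ (fun _ => rfl)).symm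

theorem tr_atSucc {M : ℕ} (r : Fin K → Fin M) (φ : Fm (M + 1)) :
    tr χ (fun i => (r i).succ) (atSucc φ) = atSucc (tr χ (fun i => (r i).succ) φ) := by
  unfold atSucc
  exact (tr_subst χ φ _ _ _ (by intro i; rfl)).symm

end

namespace Nd

theorem chi_iff (l : Nd) {K M : ℕ} (χ : Fm K) (r : Fin K → Fin M) (v : Fin M → P)
    (hv : ∀ i, (v i).lv ≤ l.n) :
    (⟨M, chi χ r, v⟩ : PS) ∈ l.Θ ↔ (⟨K, χ, fun i => v (r i)⟩ : PS) ∈ l.Θ :=
  l.rename χ r v hv

theorem dn_iff (l : Nd) {K M : ℕ} (χ : Fm K) (r : Fin K → Fin M) (ψ : Fm M) (v : Fin M → P)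
    (hv : ∀ i, (v i).lv ≤ l.n) :
    (⟨M, dn χ r ψ, v⟩ : PS) ∈ l.Θ ↔ ∀ l', l ≤ l' →
      (∀ l'', l' ≤ l'' → (⟨M, ψ, v⟩ : PS) ∈ l''.Θ →
        (⟨K, χ, fun i => v (r i)⟩ : PS) ∈ l''.Θ) → (⟨K, χ, fun i => v (r i)⟩ : PS) ∈ l'.Θ := by
  unfold dn
  rw [l.imp_iff hv]
  refine forall_congr' fun l' => forall_congr' fun hl' => ?_
  have hv' : ∀ i, (v i).lv ≤ l'.n := fun i => (hv i).trans hl'.1
  rw [l'.imp_iff hv', l'.chi_iff χ r v hv']
  refine imp_congr ?_ Iff.rfl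
  refine forall_congr' fun l'' => forall_congr' fun hl'' => ?_
  rw [l''.chi_iff χ r v (fun i => (hv' i).trans hl''.1)]

theorem dn_dn (l : Nd) {K M : ℕ} (χ : Fm K) (r : Fin K → Fin M) (ψ : Fm M) (v : Fin M → P)
    (hv : ∀ i, (v i).lv ≤ l.n) (h : (⟨M, dn χ r (dn χ r ψ), v⟩ : PS) ∈ l.Θ) :
    (⟨M, dn χ r ψ, v⟩ : PS) ∈ l.Θ := by
  rw [l.dn_iff χ r _ v hv] at h ⊢
  intro l' hl' h'
  refine h l' hl' fun l'' hl'' h'' => ?_
  rw [l''.dn_iff χ r ψ v (fun i => ((hv i).trans hl'.1).trans hl''.1)] at h''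
  exact h'' l'' le_rfl fun l3 hl3 => h' l3 (hl''.trans hl3)

theorem stab {K M : ℕ} (χ : Fm K) (φ : Fm M) : ∀ (l : Nd) (r : Fin K → Fin M) (v : Fin M → P)
    (_ : ∀ i, (v i).lv ≤ l.n), (⟨M, dn χ r (tr χ r φ), v⟩ : PS) ∈ l.Θ →
      (⟨M, tr χ r φ, v⟩ : PS) ∈ l.Θ := by
  induction φ with
  | bot =>
    intro l r v hv h
    rw [l.dn_iff χ r _ v hv] at h
    refine (l.chi_iff χ r v hv).2 (h l le_rfl fun l' hl' h' => ?_)
    exact (l'.chi_iff χ r v (fun i => (hv i).trans hl'.1)).1 h'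
  | eq t s =>
    intro l r v hv h
    exact l.dn_dn χ r _ v hv h
  | and φ ψ ihφ ihψ =>
    intro l r v hv h
    rw [l.dn_iff χ r _ v hv] at h
    refine l.and_iff.2 ⟨ihφ l r v hv ?_, ihψ l r v hv ?_⟩
    · rw [l.dn_iff χ r _ v hv]
      intro l' hl' h'
      exact h l' hl' fun l'' hl'' h'' => h' l'' hl'' (l''.and_iff.1 h'').1
    · rw [l.dn_iff χ r _ v hv]
      intro l' hl' h'
      exact h l' hl' fun l'' hl'' h'' => h' l'' hl'' (l''.and_iff.1 h'').2
  | or φ ψ ihφ ihψ =>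
    intro l r v hv h
    exact l.dn_dn χ r _ v hv h
  | imp φ ψ ihφ ihψ =>
    intro l r v hv h
    rw [l.dn_iff χ r _ v hv] at h
    refine (l.imp_iff hv).2 fun l' hl' h' => ?_
    have hv' : ∀ i, (v i).lv ≤ l'.n := fun i => (hv i).trans hl'.1
    refine ihψ l' r v hv' ((l'.dn_iff χ r _ v hv').2 fun l'' hl'' h'' => ?_)
    refine h l'' (hl'.trans hl'') fun l3 hl3 h3 => h'' l3 hl3 ?_
    exact l3.imp_mp h3 ((hl''.trans hl3).2 h')
  | all φ ih =>
    intro l r v hv h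
    rw [l.dn_iff χ r _ v hv] at h
    refine (l.all_iff hv).2 fun l' hl' c hc => ?_
    have hv' : ∀ i, (cns c v i).lv ≤ l'.n := cns_lv hc (fun i => (hv i).trans hl'.1)
    refine ih l' (fun i => (r i).succ) (cns c v) hv'
      ((l'.dn_iff χ (fun i => (r i).succ) _ (cns c v) hv').2 fun l'' hl'' h'' => ?_)
    refine h l'' (hl'.trans hl'') fun l3 hl3 h3 => h'' l3 hl3 ?_
    exact l3.all_inst h3 c ((hc.trans hl''.1).trans hl3.1)
  | ex φ ih =>
    intro l r v hv h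
    exact l.dn_dn χ r _ v hv h

theorem exfalso (l : Nd) {K M : ℕ} (χ : Fm K) (φ : Fm M) (r : Fin K → Fin M) (v : Fin M → P)
    (hv : ∀ i, (v i).lv ≤ l.n) (h : (⟨K, χ, fun i => v (r i)⟩ : PS) ∈ l.Θ) :
    (⟨M, tr χ r φ, v⟩ : PS) ∈ l.Θ :=
  stab χ φ l r v hv ((l.dn_iff χ r _ v hv).2 fun _ hl' _ => hl'.2 h)

/-- the avoided formula with parameters in the domain -/
theorem mxd (k : Nd) : ∃ (K : ℕ) (χ : Fm K) (w : Fin K → k.dom),
    (⟨K, χ, fun i => (w i).1⟩ : PS) ∉ k.Θ ∧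
    ∀ (M : ℕ) (ψ : Fm M) (v : Fin M → P) (r : Fin K → Fin M), (∀ i, (v i).lv ≤ k.n) →
      (∀ i, v (r i) = (w i).1) → (⟨M, ψ, v⟩ : PS) ∈ k.Θ ∨
        (⟨M, .imp ψ (chi χ r), v⟩ : PS) ∈ k.Θ := by
  obtain ⟨⟨K, χ, v0⟩, h1, h2, h3⟩ := k.mx
  choose w hw using fun i => k.rep (v0 i) (h1 i)
  refine ⟨K, χ, w, ?_, ?_⟩
  · intro h
    exact h2 (Cn.repl (fun i => k.symm (hw i)) h)
  · intro M ψ v r hv hr
    rcases h3 ⟨M, ψ, v⟩ hv with h4 | h4
    · exact Or.inl h4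
    · right
      refine k.cl (Cn.impI (Cn.rename.2 ?_)) hv
      have e : (fun i => v (r i)) = fun i => (w i).1 := funext hr
      rw [e]
      exact Cn.cut h4 (Cn.repl (fun i => Set.mem_insert_of_mem _ (Set.mem_insert_of_mem _ (hw i)))
        (Set.mem_insert _ _))

section
variable {k : Nd} {K : ℕ} {χ : Fm K} {w : Fin K → k.dom}
  (h1 : (⟨K, χ, fun i => (w i).1⟩ : PS) ∉ k.Θ)
  (h2 : ∀ (M : ℕ) (ψ : Fm M) (v : Fin M → P) (r : Fin K → Fin M), (∀ i, (v i).lv ≤ k.n) →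
      (∀ i, v (r i) = (w i).1) → (⟨M, ψ, v⟩ : PS) ∈ k.Θ ∨
        (⟨M, .imp ψ (chi χ r), v⟩ : PS) ∈ k.Θ)

include h1 h2

theorem dn_k {M : ℕ} (ψ : Fm M) (v : Fin M → P) (r : Fin K → Fin M) (hv : ∀ i, (v i).lv ≤ k.n)
    (hr : ∀ i, v (r i) = (w i).1) :
    (⟨M, dn χ r ψ, v⟩ : PS) ∈ k.Θ ↔ (⟨M, ψ, v⟩ : PS) ∈ k.Θ := by
  have e : (fun i => v (r i)) = fun i => (w i).1 := funext hr
  rw [k.dn_iff χ r ψ v hv]
  constructor
  · intro h
    rcases h2 M ψ v r hv hr with h3 | h3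
    · exact h3
    · exfalso
      apply h1
      rw [← e]
      refine h k le_rfl fun l hl h4 => ?_
      exact (l.chi_iff χ r v (fun i => (hv i).trans hl.1)).1 (l.imp_mp (hl.2 h3) h4)
  · intro h l hl h3
    exact h3 l le_rfl (hl.2 h)

theorem loc {M : ℕ} (φ : Fm M) : ∀ (u : Fin M → k.dom) (r : Fin K → Fin M)
    (_ : ∀ i, u (r i) = w i),
    Sat k.str φ u ↔ (⟨M, tr χ r φ, fun i => (u i).1⟩ : PS) ∈ k.Θ := by
  induction φ with
  | bot =>
    intro u r hr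
    have e : (fun i => (u (r i)).1) = fun i => (w i).1 := funext fun i => by rw [hr]
    show False ↔ (⟨_, chi χ r, fun i => (u i).1⟩ : PS) ∈ k.Θ
    rw [k.chi_iff χ r _ (coe_lv u), e]
    exact ⟨fun h => h.elim, fun h => h1 h⟩
  | eq t s =>
    intro u r hr
    show _ ↔ (⟨_, dn χ r (.eq t s), fun i => (u i).1⟩ : PS) ∈ k.Θ
    rw [dn_k h1 h2 _ _ r (coe_lv u) (fun i => by rw [hr])]
    exact k.eq_iff u t s
  | and φ ψ ihφ ihψ =>
    intro u r hr
    show _ ∧ _ ↔ (⟨_, .and (tr χ r φ) (tr χ r ψ), fun i => (u i).1⟩ : PS) ∈ k.Θ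
    rw [k.and_iff, ← ihφ u r hr, ← ihψ u r hr]
  | or φ ψ ihφ ihψ =>
    intro u r hr
    show _ ∨ _ ↔ (⟨_, dn χ r (.or (tr χ r φ) (tr χ r ψ)), fun i => (u i).1⟩ : PS) ∈ k.Θ
    rw [dn_k h1 h2 _ _ r (coe_lv u) (fun i => by rw [hr]), k.or_iff (coe_lv u), ← ihφ u r hr,
      ← ihψ u r hr]
  | imp φ ψ ihφ ihψ =>
    intro u r hr
    show (_ → _) ↔ (⟨_, .imp (tr χ r φ) (tr χ r ψ), fun i => (u i).1⟩ : PS) ∈ k.Θ
    rw [ihφ u r hr, ihψ u r hr]
    constructor
    · intro h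
      refine (k.imp_iff (coe_lv u)).2 fun l hl hφ => ?_
      rcases h2 _ (tr χ r φ) (fun i => (u i).1) r (coe_lv u) (fun i => by rw [hr]) with h3 | h3
      · exact hl.2 (h h3)
      · have hv : ∀ i, ((u i).1 : P).lv ≤ l.n := fun i => (coe_lv u i).trans hl.1
        exact l.exfalso χ ψ r _ hv ((l.chi_iff χ r _ hv).1 (l.imp_mp (hl.2 h3) hφ))
    · intro h hφ
      exact k.imp_mp h hφ
  | all φ ih =>
    intro u r hr
    show (∀ a, Sat k.str φ (cns a u)) ↔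
      (⟨_, .all (tr χ (fun i => (r i).succ) φ), fun i => (u i).1⟩ : PS) ∈ k.Θ
    have key : ∀ a : k.dom, Sat k.str φ (cns a u) ↔
        (⟨_, tr χ (fun i => (r i).succ) φ, cns a.1 (fun i => (u i).1)⟩ : PS) ∈ k.Θ := by
      intro a
      rw [ih (cns a u) (fun i => (r i).succ) (fun i => hr i), coe_cns]
    constructor
    · intro h
      have hE : ∀ i, (u (r i)).1 = (w i).1 := fun i => by rw [hr]
      rcases h2 _ (.ex (.imp (tr χ (fun i => (r i).succ) φ) (chi χ (fun i => (r i).succ))))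
        (fun i => (u i).1) r (coe_lv u) hE with h3 | h3
      · exfalso
        obtain ⟨c, hc, hc2⟩ := k.hen _ _ _ h3
        obtain ⟨a, ha⟩ := k.rep c hc
        have h4 := k.repl (w := cns a.1 (fun i => (u i).1)) (fun i => by
          refine Fin.cases ha (fun j => ?_) i
          exact k.refl (coe_lv u j)) hc2
        have h5 := k.imp_mp h4 ((key a).1 (h a))
        have h6 := (k.chi_iff χ _ _ (cns_lv a.2.1 (coe_lv u))).1 h5
        apply h1
        have e : (fun i => (w i).1) = fun i =>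
            cns a.1 (fun i => (u i).1) ((fun i => (r i).succ) i) := funext fun i => (hE i).symm
        rw [e]
        exact h6
      · refine (k.all_iff (coe_lv u)).2 fun l hl c hc => ?_
        have hv : ∀ i, ((u i).1 : P).lv ≤ l.n := fun i => (coe_lv u i).trans hl.1
        have hcv := cns_lv hc hv
        refine stab χ φ l (fun i => (r i).succ) _ hcv ((l.dn_iff χ _ _ _ hcv).2
          fun l' hl' h4 => ?_)
        have hv' : ∀ i, ((u i).1 : P).lv ≤ l'.n := fun i => (hv i).trans hl'.1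
        have h5 : (⟨_, .ex (.imp (tr χ (fun i => (r i).succ) φ) (chi χ (fun i => (r i).succ))),
            fun i => (u i).1⟩ : PS) ∈ l'.Θ := by
          refine (l'.ex_iff hv').2 ⟨c, hc.trans hl'.1, (l'.imp_iff (cns_lv (hc.trans hl'.1) hv')).2
            fun l'' hl'' h6 => ?_⟩
          exact (l''.chi_iff χ _ _ (cns_lv ((hc.trans hl'.1).trans hl''.1)
            (fun i => (hv' i).trans hl''.1))).2 (h4 l'' hl'' h6)
        exact (l'.chi_iff χ r _ hv').1 (l'.imp_mp ((hl.trans hl').2 h3) h5)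
    · intro h a
      exact (key a).2 (k.all_inst h a.1 a.2.1)
  | ex φ ih =>
    intro u r hr
    show (∃ a, Sat k.str φ (cns a u)) ↔
      (⟨_, dn χ r (.ex (tr χ (fun i => (r i).succ) φ)), fun i => (u i).1⟩ : PS) ∈ k.Θ
    rw [dn_k h1 h2 _ _ r (coe_lv u) (fun i => by rw [hr]), k.ex_iff (coe_lv u)]
    have key : ∀ a : k.dom, Sat k.str φ (cns a u) ↔
        (⟨_, tr χ (fun i => (r i).succ) φ, cns a.1 (fun i => (u i).1)⟩ : PS) ∈ k.Θ := by
      intro a
      rw [ih (cns a u) (fun i => (r i).succ) (fun i => hr i), coe_cns]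
    constructor
    · rintro ⟨a, ha⟩
      exact ⟨a.1, a.2.1, (key a).1 ha⟩
    · rintro ⟨c, hc, h⟩
      obtain ⟨a, ha⟩ := k.rep c hc
      refine ⟨a, (key a).2 (k.repl (fun i => ?_) h)⟩
      refine Fin.cases ha (fun j => ?_) i
      exact k.refl (coe_lv u j)

theorem loc_ind {M : ℕ} (φ : Fm (M + 1)) (u : Fin M → k.dom) (r : Fin K → Fin M)
    (hr : ∀ i, u (r i) = w i) (h0 : Sat k.str (atZero φ) u)
    (hs : ∀ a, Sat k.str φ (cns a u) → Sat k.str (atSucc φ) (cns a u)) :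
    ∀ a, Sat k.str φ (cns a u) := by
  have k0 := (loc h1 h2 (atZero φ) u r hr).1 h0
  have ks := (loc h1 h2 (.all (.imp φ (atSucc φ))) u r hr).1 hs
  have ks' : (⟨M, .all (.imp (tr χ (fun i => (r i).succ) φ)
      (tr χ (fun i => (r i).succ) (atSucc φ))), fun i => (u i).1⟩ : PS) ∈ k.Θ := ks
  rw [tr_atZero] at k0
  rw [tr_atSucc] at ks'
  have hax := k.closure_inst _ (k.ha _ (Ax.ind M (tr χ (fun i => (r i).succ) φ)))
    (fun i => (u i).1) (coe_lv u)
  have := k.imp_mp hax (k.and_iff.2 ⟨k0, ks'⟩)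
  exact (loc h1 h2 (.all φ) u r hr).2 this

end

theorem sat_closure {M : Type} (A : Str M) {n : ℕ} (ψ : Fm n) (h : ∀ u, Sat A ψ u) :
    Sat A (closure n ψ) (fun i => i.elim0) := by
  induction n with
  | zero => exact h _
  | succ n ih => exact ih (.all ψ) fun u a => h _

/-- Every node is a model of Peano arithmetic. -/
theorem locPA (k : Nd) : ModelsPA k.str := by
  have e0 : (fun i : Fin 0 => ((i.elim0 : k.dom)).1) = (fun i : Fin 0 => (i.elim0 : P)) :=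
    funext fun i => i.elim0
  have in1 : ∀ (ψ : Fm 1), (⟨0, .all ψ, fun i => i.elim0⟩ : PS) ∈ k.Θ → ∀ a : k.dom,
      (⟨1, ψ, fun i => ((cns a (fun i : Fin 0 => (i.elim0 : k.dom)) : Fin 1 → k.dom) i).1⟩ : PS) ∈
        k.Θ := by
    intro ψ h a
    rw [coe_cns, e0]
    exact k.all_inst h a.1 a.2.1
  have in2 : ∀ (ψ : Fm 2), (⟨0, .all (.all ψ), fun i => i.elim0⟩ : PS) ∈ k.Θ → ∀ a b : k.dom,
      (⟨2, ψ, fun i => ((cns b (cns a (fun i : Fin 0 => (i.elim0 : k.dom))) :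
        Fin 2 → k.dom) i).1⟩ : PS) ∈ k.Θ := by
    intro ψ h a b
    rw [coe_cns, coe_cns, e0]
    exact k.all_inst (k.all_inst h a.1 a.2.1) b.1 b.2.1
  intro α hα
  cases hα with
  | succ_ne =>
    intro a h
    have h' := (k.eq_iff _ _ _).1 h
    exact k.bot _ (k.imp_mp (in1 _ (k.ha _ Ax.succ_ne) a) h')
  | succ_inj =>
    intro a b h
    have h' := (k.eq_iff _ _ _).1 h
    exact (k.eq_iff _ _ _).2 (k.imp_mp (in2 _ (k.ha _ Ax.succ_inj) a b) h')
  | add_zero =>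
    intro a
    exact (k.eq_iff _ _ _).2 (in1 _ (k.ha _ Ax.add_zero) a)
  | add_succ =>
    intro a b
    exact (k.eq_iff _ _ _).2 (in2 _ (k.ha _ Ax.add_succ) a b)
  | mul_zero =>
    intro a
    exact (k.eq_iff _ _ _).2 (in1 _ (k.ha _ Ax.mul_zero) a)
  | mul_succ =>
    intro a b
    exact (k.eq_iff _ _ _).2 (in2 _ (k.ha _ Ax.mul_succ) a b)
  | ind n φ =>
    obtain ⟨K, χ, w, h1, h2⟩ := k.mxd
    refine sat_closure _ _ fun u => ?_
    rintro ⟨h0, hs⟩
    -- the larger context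
    let u' : Fin (n + K) → k.dom := Fin.append u w
    let φ' : Fm (n + K + 1) := φ.subst (up (fun i => .var (Fin.castAdd K i)))
    have hφ' : ∀ a, Sat k.str φ' (cns a u') ↔ Sat k.str φ (cns a u) := by
      intro a
      show Sat k.str (φ.subst _) _ ↔ _
      rw [sat_subst, up_ev]
      have : (fun i => (Tm.var (Fin.castAdd K i) : Tm (n + K)).ev k.str u') = u :=
        funext fun i => Fin.append_left _ _ _
      rw [this]
    have h3 := loc_ind h1 h2 φ' u' (fun i => Fin.natAdd n i) (fun i => Fin.append_right _ _ _)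
      (by rw [sat_atZero, hφ', ← sat_atZero]; exact h0)
      (fun a ha => by
        rw [sat_atSucc, hφ', ← sat_atSucc]
        exact hs a ((hφ' a).1 ha))
    intro a
    exact (hφ' a).1 (h3 a)

end Nd

end Pool.Agent.H872R3.KH
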