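import Pool.Agent.H872R3.LK.Hen

/-! Nodes of the canonical model. -/

set_option autoImplicit false

namespace Pool.Agent.H872R3.KH

/-- nodes: maximal Henkin theories avoiding some formula, containing `HA`, with parameters of level
at most `n` -/
@[ext]
structure Nd where
  n : ℕ
  Θ : Set PS
  lev : ∀ x ∈ Θ, x.Lev n
  mx : ∃ χ : PS, χ.Lev n ∧ ¬ Cn Θ χ ∧ ∀ x : PS, x.Lev n → x ∈ Θ ∨ Cn (insert x Θ) χ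
  hen : ∀ (m : ℕ) (φ : Fm (m + 1)) (v : Fin m → P), (⟨m, .ex φ, v⟩ : PS) ∈ Θ →
    ∃ c : P, c.lv ≤ n ∧ (⟨m + 1, φ, cns c v⟩ : PS) ∈ Θ
  ha : ∀ α : Fm 0, Ax α → (⟨0, α, fun i => i.elim0⟩ : PS) ∈ Θ

instance : PartialOrder Nd where
  le k l := k.n ≤ l.n ∧ k.Θ ⊆ l.Θ
  le_refl k := ⟨le_rfl, subset_rfl⟩
  le_trans k l m h h' := ⟨h.1.trans h'.1, h.2.trans h'.2⟩
  le_antisymm k l h h' := by
    ext1
    · exact le_antisymm h.1 h'.1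
    · exact subset_antisymm h.2 h'.2

theorem Nd.le_iff {k l : Nd} : k ≤ l ↔ k.n ≤ l.n ∧ k.Θ ⊆ l.Θ := Iff.rfl

theorem Nd.extend (k : Nd) (T : Set PS) (hT : ∀ x ∈ T, x.Lev k.n) (χ : PS) (hχ : χ.Lev (k.n + 1))
    (h : ¬ Cn (k.Θ ∪ T) χ) : ∃ l : Nd, k ≤ l ∧ l.n = k.n + 1 ∧ T ⊆ l.Θ ∧ χ ∉ l.Θ := by
  obtain ⟨Θ, h1, h2, h3, h4, h5⟩ := henkin k.n (k.Θ ∪ T) χ (by
    rintro x (hx | hx)
    · exact k.lev x hx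
    · exact hT x hx) h
  have hk : k.Θ ⊆ Θ := Set.subset_union_left.trans h1
  exact ⟨⟨k.n + 1, Θ, h2, ⟨χ, hχ, h3, h4⟩, h5, fun α hα => hk (k.ha α hα)⟩, ⟨Nat.le_succ _, hk⟩, rfl,
    Set.subset_union_right.trans h1, fun hmem => h3 (Cn.mem hmem)⟩

/-- nodes are closed -/
theorem Nd.cl (k : Nd) {x : PS} (h : Cn k.Θ x) (hx : x.Lev k.n) : x ∈ k.Θ := by
  obtain ⟨χ, h1, h2, h3⟩ := k.mx
  rcases h3 x hx with h4 | h4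
  · exact h4
  · exact absurd (Cn.cut h h4) h2

theorem Nd.bot (k : Nd) {m : ℕ} (v : Fin m → P) : (⟨m, .bot, v⟩ : PS) ∉ k.Θ := by
  intro h
  obtain ⟨χ, h1, h2, h3⟩ := k.mx
  exact h2 (Cn.rule1 (a := ⟨m, .bot, v⟩) (fun N Γ (h : Prv Γ .bot) => .botE h) (Cn.mem h))

theorem Nd.and_iff (k : Nd) {m : ℕ} {φ ψ : Fm m} {v : Fin m → P} :
    (⟨m, .and φ ψ, v⟩ : PS) ∈ k.Θ ↔ (⟨m, φ, v⟩ : PS) ∈ k.Θ ∧ (⟨m, ψ, v⟩ : PS) ∈ k.Θ := by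
  constructor
  · intro h
    have hl : ∀ i, (v i).lv ≤ k.n := k.lev _ h
    exact ⟨k.cl (Cn.rule1 (a := ⟨m, .and φ ψ, v⟩) (fun N Γ
      (h : Prv Γ (.and (PS.at N ⟨m, φ, v⟩) (PS.at N ⟨m, ψ, v⟩))) => .andE₁ h) (Cn.mem h)) hl,
      k.cl (Cn.rule1 (a := ⟨m, .and φ ψ, v⟩) (fun N Γ
      (h : Prv Γ (.and (PS.at N ⟨m, φ, v⟩) (PS.at N ⟨m, ψ, v⟩))) => .andE₂ h) (Cn.mem h)) hl⟩
  · rintro ⟨h1, h2⟩
    have hl : ∀ i, (v i).lv ≤ k.n := k.lev _ h1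
    exact k.cl (Cn.rule2 (a := ⟨m, φ, v⟩) (b := ⟨m, ψ, v⟩) (fun N Γ h h' => .andI h h')
      (Cn.mem h1) (Cn.mem h2)) hl

theorem Nd.or_iff (k : Nd) {m : ℕ} {φ ψ : Fm m} {v : Fin m → P} (hv : ∀ i, (v i).lv ≤ k.n) :
    (⟨m, .or φ ψ, v⟩ : PS) ∈ k.Θ ↔ (⟨m, φ, v⟩ : PS) ∈ k.Θ ∨ (⟨m, ψ, v⟩ : PS) ∈ k.Θ := by
  constructor
  · intro h
    obtain ⟨χ, h1, h2, h3⟩ := k.mx
    rcases h3 ⟨m, φ, v⟩ hv with h4 | h4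
    · exact Or.inl h4
    rcases h3 ⟨m, ψ, v⟩ hv with h5 | h5
    · exact Or.inr h5
    exact absurd (Cn.orE (Cn.mem h) h4 h5) h2
  · rintro (h | h)
    · exact k.cl (Cn.rule1 (a := ⟨m, φ, v⟩) (fun N Γ h => .orI₁ h) (Cn.mem h)) hv
    · exact k.cl (Cn.rule1 (a := ⟨m, ψ, v⟩) (fun N Γ h => .orI₂ h) (Cn.mem h)) hv

theorem Nd.imp_mp (k : Nd) {m : ℕ} {φ ψ : Fm m} {v : Fin m → P}
    (h : (⟨m, .imp φ ψ, v⟩ : PS) ∈ k.Θ) (h' : (⟨m, φ, v⟩ : PS) ∈ k.Θ) :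
    (⟨m, ψ, v⟩ : PS) ∈ k.Θ :=
  k.cl (Cn.impE (Cn.mem h) (Cn.mem h')) (show ∀ i, (v i).lv ≤ k.n from k.lev _ h')

theorem Nd.imp_iff (k : Nd) {m : ℕ} {φ ψ : Fm m} {v : Fin m → P} (hv : ∀ i, (v i).lv ≤ k.n) :
    (⟨m, .imp φ ψ, v⟩ : PS) ∈ k.Θ ↔ ∀ l, k ≤ l → (⟨m, φ, v⟩ : PS) ∈ l.Θ →
      (⟨m, ψ, v⟩ : PS) ∈ l.Θ := by
  constructor
  · intro h l hkl h'
    exact l.imp_mp (hkl.2 h) h'
  · intro h
    by_contra hcon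
    have h1 : ¬ Cn (k.Θ ∪ {(⟨m, φ, v⟩ : PS)}) ⟨m, ψ, v⟩ := by
      intro hc
      apply hcon
      refine k.cl (Cn.impI ?_) hv
      rwa [Set.union_singleton] at hc
    obtain ⟨l, hkl, -, hl1, hl2⟩ := k.extend {(⟨m, φ, v⟩ : PS)} (by
      intro x hx
      rw [Set.mem_singleton_iff.1 hx]
      exact hv) ⟨m, ψ, v⟩ (fun i => (hv i).trans (Nat.le_succ _)) h1
    exact hl2 (h l hkl (hl1 (Set.mem_singleton _)))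

theorem Nd.all_inst (k : Nd) {m : ℕ} {φ : Fm (m + 1)} {v : Fin m → P}
    (h : (⟨m, .all φ, v⟩ : PS) ∈ k.Θ) (c : P) (hc : c.lv ≤ k.n) :
    (⟨m + 1, φ, cns c v⟩ : PS) ∈ k.Θ :=
  k.cl (Cn.allE c (Cn.mem h)) (cns_lv hc (k.lev _ h))

theorem Nd.all_iff (k : Nd) {m : ℕ} {φ : Fm (m + 1)} {v : Fin m → P} (hv : ∀ i, (v i).lv ≤ k.n) :
    (⟨m, .all φ, v⟩ : PS) ∈ k.Θ ↔ ∀ l, k ≤ l → ∀ c : P, c.lv ≤ l.n →
      (⟨m + 1, φ, cns c v⟩ : PS) ∈ l.Θ := by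
  constructor
  · intro h l hkl c hc
    exact l.all_inst (hkl.2 h) c hc
  · intro h
    by_contra hcon
    let c : P := toLex (k.n + 1, 0)
    have hc : c.lv = k.n + 1 := rfl
    have fr : ∀ p : P, p.lv ≤ k.n → p ≠ c := by
      intro p hp he
      rw [he, hc] at hp
      omega
    have h1 : ¬ Cn (k.Θ ∪ ∅) ⟨m + 1, φ, cns c v⟩ := by
      intro hcn
      rw [Set.union_empty] at hcn
      exact hcon (k.cl (Cn.allI c (fun x hx i => fr _ (k.lev x hx i)) (fun i => fr _ (hv i)) hcn) hv)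
    obtain ⟨l, hkl, hln, -, hl2⟩ := k.extend ∅ (by simp) ⟨m + 1, φ, cns c v⟩
      (cns_lv hc.le (fun i => (hv i).trans (Nat.le_succ _))) h1
    exact hl2 (h l hkl c (by rw [hc, hln]))

theorem Nd.ex_iff (k : Nd) {m : ℕ} {φ : Fm (m + 1)} {v : Fin m → P} (hv : ∀ i, (v i).lv ≤ k.n) :
    (⟨m, .ex φ, v⟩ : PS) ∈ k.Θ ↔ ∃ c : P, c.lv ≤ k.n ∧ (⟨m + 1, φ, cns c v⟩ : PS) ∈ k.Θ := by
  constructor
  · exact k.hen m φ v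
  · rintro ⟨c, hc, h⟩
    exact k.cl (Cn.exI c (Cn.mem h)) hv

theorem Nd.rename (k : Nd) {n m : ℕ} (φ : Fm n) (r : Fin n → Fin m) (v : Fin m → P)
    (hv : ∀ i, (v i).lv ≤ k.n) :
    (⟨m, φ.subst (fun i => .var (r i)), v⟩ : PS) ∈ k.Θ ↔ (⟨n, φ, fun i => v (r i)⟩ : PS) ∈ k.Θ :=
  ⟨fun h => k.cl (Cn.rename.1 (Cn.mem h)) (fun i => hv (r i)),
    fun h => k.cl (Cn.rename.2 (Cn.mem h)) hv⟩

theorem Nd.refl (k : Nd) {c : P} (hc : c.lv ≤ k.n) : eqP c c ∈ k.Θ :=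
  k.cl (Cn.refl _ c) (cns_lv hc (cns_lv hc (fun i => i.elim0)))

theorem Nd.repl (k : Nd) {m : ℕ} {φ : Fm m} {v w : Fin m → P}
    (he : ∀ i, eqP (v i) (w i) ∈ k.Θ) (h : (⟨m, φ, v⟩ : PS) ∈ k.Θ) : (⟨m, φ, w⟩ : PS) ∈ k.Θ :=
  k.cl (Cn.repl he h) (fun i => k.lev _ (he i) (1 : Fin 2))

theorem Nd.symm (k : Nd) {c d : P} (h : eqP c d ∈ k.Θ) : eqP d c ∈ k.Θ := by
  have hc : c.lv ≤ k.n := k.lev _ h (0 : Fin 2)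
  have h1 : eqP c c ∈ k.Θ := k.refl hc
  refine k.repl (φ := .eq (.var 0) (.var 1)) (v := cns c (cns c (fun i => i.elim0))) (fun i => ?_) h1
  refine Fin.cases h (fun j => ?_) i
  refine Fin.cases h1 (fun j => j.elim0) j

theorem Nd.trans (k : Nd) {c d e : P} (h : eqP c d ∈ k.Θ) (h' : eqP d e ∈ k.Θ) :
    eqP c e ∈ k.Θ := by
  have hc : c.lv ≤ k.n := k.lev _ h (0 : Fin 2)
  refine k.repl (φ := .eq (.var 0) (.var 1)) (v := cns c (cns d (fun i => i.elim0))) (fun i => ?_) h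
  refine Fin.cases (k.refl hc) (fun j => ?_) i
  refine Fin.cases h' (fun j => j.elim0) j

end Pool.Agent.H872R3.KH
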