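import Pool.Agent.H872R3.KH.Defs

/-! Substitution lemmas. -/

set_option autoImplicit false

namespace Pool.Agent.H872R3.KH

theorem Tm.subst_comp {n m k : ℕ} (σ : Fin n → Tm m) (τ : Fin m → Tm k) (t : Tm n) :
    (t.subst σ).subst τ = t.subst (fun i => (σ i).subst τ) := by
  induction t with
  | var i => rfl
  | zero => rfl
  | succ t ih => simp only [Tm.subst, ih]
  | add t s iht ihs => simp only [Tm.subst, iht, ihs]
  | mul t s iht ihs => simp only [Tm.subst, iht, ihs]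

theorem up_comp {n m k : ℕ} (σ : Fin n → Tm m) (τ : Fin m → Tm k) :
    (fun i => (up σ i).subst (up τ)) = up (fun i => (σ i).subst τ) := by
  funext i
  refine Fin.cases rfl (fun j => ?_) i
  show ((σ j).subst (fun l => Tm.var l.succ)).subst (up τ) =
    ((σ j).subst τ).subst (fun l => Tm.var l.succ)
  rw [Tm.subst_comp, Tm.subst_comp]
  rfl

theorem Fm.subst_comp {n : ℕ} (φ : Fm n) : ∀ {m k : ℕ} (σ : Fin n → Tm m) (τ : Fin m → Tm k),
    (φ.subst σ).subst τ = φ.subst (fun i => (σ i).subst τ) := by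
  induction φ with
  | bot => intro m k σ τ; rfl
  | eq t s => intro m k σ τ; simp only [Fm.subst, Tm.subst_comp]
  | and φ ψ ihφ ihψ => intro m k σ τ; simp only [Fm.subst, ihφ, ihψ]
  | or φ ψ ihφ ihψ => intro m k σ τ; simp only [Fm.subst, ihφ, ihψ]
  | imp φ ψ ihφ ihψ => intro m k σ τ; simp only [Fm.subst, ihφ, ihψ]
  | all φ ih => intro m k σ τ; simp only [Fm.subst, ih, up_comp]
  | ex φ ih => intro m k σ τ; simp only [Fm.subst, ih, up_comp]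

theorem up_var (n : ℕ) : up (fun i : Fin n => Tm.var i) = fun i => Tm.var i := by
  funext i
  refine Fin.cases rfl (fun j => rfl) i

theorem Tm.subst_id {n : ℕ} (t : Tm n) : t.subst (fun i => .var i) = t := by
  induction t with
  | var i => rfl
  | zero => rfl
  | succ t ih => simp only [Tm.subst, ih]
  | add t s iht ihs => simp only [Tm.subst, iht, ihs]
  | mul t s iht ihs => simp only [Tm.subst, iht, ihs]

theorem Fm.subst_id {n : ℕ} (φ : Fm n) : φ.subst (fun i => .var i) = φ := by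
  induction φ with
  | bot => rfl
  | eq t s => simp only [Fm.subst, Tm.subst_id]
  | and φ ψ ihφ ihψ => simp only [Fm.subst, ihφ, ihψ]
  | or φ ψ ihφ ihψ => simp only [Fm.subst, ihφ, ihψ]
  | imp φ ψ ihφ ihψ => simp only [Fm.subst, ihφ, ihψ]
  | all φ ih => simp only [Fm.subst, up_var, ih]
  | ex φ ih => simp only [Fm.subst, up_var, ih]

/-- `φ` in a context with one more variable `x_0` -/
def Fm.sh {n : ℕ} (φ : Fm n) : Fm (n + 1) := φ.subst (fun l => .var l.succ)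

/-- `φ(t, x_0, …, x_{n-1})` -/
def Fm.inst {n : ℕ} (φ : Fm (n + 1)) (t : Tm n) : Fm n :=
  φ.subst (fun i => Fin.cases t (fun j => .var j) i)

theorem Fm.sh_up {n m : ℕ} (φ : Fm n) (σ : Fin n → Tm m) :
    φ.sh.subst (up σ) = (φ.subst σ).sh := by
  unfold Fm.sh
  rw [Fm.subst_comp, Fm.subst_comp]
  rfl

theorem Fm.inst_subst {n m : ℕ} (φ : Fm (n + 1)) (t : Tm n) (σ : Fin n → Tm m) :
    (φ.inst t).subst σ = (φ.subst (up σ)).inst (t.subst σ) := by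
  unfold Fm.inst
  rw [Fm.subst_comp, Fm.subst_comp]
  congr 1
  funext i
  refine Fin.cases rfl (fun j => ?_) i
  show σ j = ((σ j).subst (fun l => Tm.var l.succ)).subst _
  rw [Tm.subst_comp]
  exact (Tm.subst_id _).symm

theorem Fm.up_inst {n m : ℕ} (φ : Fm (n + 1)) (σ : Fin n → Tm m) (t : Tm m) :
    (φ.subst (up σ)).inst t = φ.subst (fun i => Fin.cases t (fun j => σ j) i) := by
  unfold Fm.inst
  rw [Fm.subst_comp]
  congr 1
  funext i
  refine Fin.cases rfl (fun j => ?_) i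
  show ((σ j).subst (fun l => Tm.var l.succ)).subst _ = σ j
  rw [Tm.subst_comp]
  exact Tm.subst_id _

theorem atZero_subst {n m : ℕ} (φ : Fm (n + 1)) (σ : Fin n → Tm m) :
    (atZero φ).subst σ = atZero (φ.subst (up σ)) :=
  Fm.inst_subst φ .zero σ

theorem atSucc_subst {n m : ℕ} (φ : Fm (n + 1)) (σ : Fin n → Tm m) :
    (atSucc φ).subst (up σ) = atSucc (φ.subst (up σ)) := by
  unfold atSucc
  rw [Fm.subst_comp, Fm.subst_comp]
  congr 1
  funext i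
  refine Fin.cases rfl (fun j => ?_) i
  show (σ j).subst (fun l => Tm.var l.succ) = ((σ j).subst (fun l => Tm.var l.succ)).subst _
  rw [Tm.subst_comp]
  rfl

/-- Natural deduction for intuitionistic predicate logic with equality: `Prv Γ φ` says that `φ` is
derivable from the hypotheses `Γ`; the free variables of `Γ` and `φ` are among `x_0, …, x_{n-1}`. -/
inductive Prv : {n : ℕ} → List (Fm n) → Fm n → Prop
  | hyp {n : ℕ} {Γ : List (Fm n)} {φ : Fm n} : φ ∈ Γ → Prv Γ φ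
  | botE {n : ℕ} {Γ : List (Fm n)} {φ : Fm n} : Prv Γ .bot → Prv Γ φ
  | andI {n : ℕ} {Γ : List (Fm n)} {φ ψ : Fm n} : Prv Γ φ → Prv Γ ψ → Prv Γ (.and φ ψ)
  | andE₁ {n : ℕ} {Γ : List (Fm n)} {φ ψ : Fm n} : Prv Γ (.and φ ψ) → Prv Γ φ
  | andE₂ {n : ℕ} {Γ : List (Fm n)} {φ ψ : Fm n} : Prv Γ (.and φ ψ) → Prv Γ ψ
  | orI₁ {n : ℕ} {Γ : List (Fm n)} {φ ψ : Fm n} : Prv Γ φ → Prv Γ (.or φ ψ)
  | orI₂ {n : ℕ} {Γ : List (Fm n)} {φ ψ : Fm n} : Prv Γ ψ → Prv Γ (.or φ ψ)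
  | orE {n : ℕ} {Γ : List (Fm n)} {φ ψ χ : Fm n} : Prv Γ (.or φ ψ) → Prv (φ :: Γ) χ →
      Prv (ψ :: Γ) χ → Prv Γ χ
  | impI {n : ℕ} {Γ : List (Fm n)} {φ ψ : Fm n} : Prv (φ :: Γ) ψ → Prv Γ (.imp φ ψ)
  | impE {n : ℕ} {Γ : List (Fm n)} {φ ψ : Fm n} : Prv Γ (.imp φ ψ) → Prv Γ φ → Prv Γ ψ
  | allI {n : ℕ} {Γ : List (Fm n)} {φ : Fm (n + 1)} : Prv (Γ.map Fm.sh) φ → Prv Γ (.all φ)
  | allE {n : ℕ} {Γ : List (Fm n)} {φ : Fm (n + 1)} (t : Tm n) : Prv Γ (.all φ) →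
      Prv Γ (φ.inst t)
  | exI {n : ℕ} {Γ : List (Fm n)} {φ : Fm (n + 1)} (t : Tm n) : Prv Γ (φ.inst t) →
      Prv Γ (.ex φ)
  | exE {n : ℕ} {Γ : List (Fm n)} {φ : Fm (n + 1)} {χ : Fm n} : Prv Γ (.ex φ) →
      Prv (φ :: Γ.map Fm.sh) χ.sh → Prv Γ χ
  | refl {n : ℕ} {Γ : List (Fm n)} (t : Tm n) : Prv Γ (.eq t t)
  | repl {n m : ℕ} {Γ : List (Fm n)} (φ : Fm m) (σ τ : Fin m → Tm n) :
      (∀ i, Prv Γ (.eq (σ i) (τ i))) → Prv Γ (φ.subst σ) → Prv Γ (φ.subst τ)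

/-- `HA ⊢ φ`: the sentence `φ` is derivable in intuitionistic logic from finitely many axioms. -/
def HAProves (φ : Fm 0) : Prop := ∃ L : List (Fm 0), (∀ α ∈ L, Ax α) ∧ Prv L φ

theorem Prv.subst {n : ℕ} {Γ : List (Fm n)} {φ : Fm n} (h : Prv Γ φ) :
    ∀ {m : ℕ} (σ : Fin n → Tm m), Prv (Γ.map (fun γ => γ.subst σ)) (φ.subst σ) := by
  have hsh : ∀ {n m : ℕ} (Γ : List (Fm n)) (σ : Fin n → Tm m),
      (Γ.map Fm.sh).map (fun γ => γ.subst (up σ)) = (Γ.map (fun γ => γ.subst σ)).map Fm.sh := by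
    intro n m Γ σ
    rw [List.map_map, List.map_map]
    refine List.map_congr_left fun γ _ => ?_
    exact Fm.sh_up γ σ
  induction h with
  | hyp h => intro m σ; exact .hyp (List.mem_map_of_mem h)
  | botE _ ih => intro m σ; exact .botE (ih σ)
  | andI _ _ ih1 ih2 => intro m σ; exact .andI (ih1 σ) (ih2 σ)
  | andE₁ _ ih => intro m σ; exact .andE₁ (ih σ)
  | andE₂ _ ih => intro m σ; exact .andE₂ (ih σ)
  | orI₁ _ ih => intro m σ; exact .orI₁ (ih σ)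
  | orI₂ _ ih => intro m σ; exact .orI₂ (ih σ)
  | orE _ _ _ ih1 ih2 ih3 => intro m σ; exact .orE (ih1 σ) (ih2 σ) (ih3 σ)
  | impI _ ih => intro m σ; exact .impI (ih σ)
  | impE _ _ ih1 ih2 => intro m σ; exact .impE (ih1 σ) (ih2 σ)
  | allI _ ih =>
    intro m σ
    refine .allI ?_
    have := ih (up σ)
    rwa [hsh] at this
  | allE t _ ih =>
    intro m σ
    rw [Fm.inst_subst]
    exact .allE _ (ih σ)
  | exI t _ ih =>
    intro m σ
    refine .exI (t.subst σ) ?_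
    have := ih σ
    rwa [Fm.inst_subst] at this
  | exE _ _ ih1 ih2 =>
    intro m σ
    refine .exE (ih1 σ) ?_
    have := ih2 (up σ)
    rw [List.map_cons, hsh, Fm.sh_up] at this
    exact this
  | refl t => intro m σ; exact .refl _
  | repl φ σ τ _ _ ih1 ih2 =>
    intro m ρ
    have h2 := ih2 ρ
    rw [Fm.subst_comp] at h2 ⊢
    exact .repl φ _ _ (fun i => ih1 i ρ) h2

theorem Prv.weak {n : ℕ} {Γ : List (Fm n)} {φ : Fm n} (h : Prv Γ φ) :
    ∀ {Δ : List (Fm n)}, Γ ⊆ Δ → Prv Δ φ := by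
  induction h with
  | hyp h => intro Δ hΔ; exact .hyp (hΔ h)
  | botE _ ih => intro Δ hΔ; exact .botE (ih hΔ)
  | andI _ _ ih1 ih2 => intro Δ hΔ; exact .andI (ih1 hΔ) (ih2 hΔ)
  | andE₁ _ ih => intro Δ hΔ; exact .andE₁ (ih hΔ)
  | andE₂ _ ih => intro Δ hΔ; exact .andE₂ (ih hΔ)
  | orI₁ _ ih => intro Δ hΔ; exact .orI₁ (ih hΔ)
  | orI₂ _ ih => intro Δ hΔ; exact .orI₂ (ih hΔ)
  | orE _ _ _ ih1 ih2 ih3 =>
    intro Δ hΔ
    exact .orE (ih1 hΔ) (ih2 (List.cons_subset_cons _ hΔ)) (ih3 (List.cons_subset_cons _ hΔ))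
  | impI _ ih => intro Δ hΔ; exact .impI (ih (List.cons_subset_cons _ hΔ))
  | impE _ _ ih1 ih2 => intro Δ hΔ; exact .impE (ih1 hΔ) (ih2 hΔ)
  | allI _ ih => intro Δ hΔ; exact .allI (ih (List.map_subset _ hΔ))
  | allE t _ ih => intro Δ hΔ; exact .allE t (ih hΔ)
  | exI t _ ih => intro Δ hΔ; exact .exI t (ih hΔ)
  | exE _ _ ih1 ih2 =>
    intro Δ hΔ
    exact .exE (ih1 hΔ) (ih2 (List.cons_subset_cons _ (List.map_subset _ hΔ)))
  | refl t => intro Δ hΔ; exact .refl t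
  | repl φ σ τ _ _ ih1 ih2 => intro Δ hΔ; exact .repl φ σ τ (fun i => ih1 i hΔ) (ih2 hΔ)

theorem Prv.cut {n : ℕ} {Γ : List (Fm n)} {φ ψ : Fm n} (h : Prv Γ φ) (h' : Prv (φ :: Γ) ψ) :
    Prv Γ ψ := .impE (.impI h') h

end Pool.Agent.H872R3.KH
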